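import Pool.Agent.RatApprox.CircleThm

/-!
The circle theorem for any circle of the Euclidean plane.
-/

set_option autoImplicit false

namespace Pool.Agent.RatApprox

open Filter Topology Complex ComplexConjugate EuclideanGeometry

noncomputable section

theorem circle1 {O V : ℂ} {R : ℝ} (hR : 0 < R) (hV : R < dist V O) :
    RationallyApproximable (Metric.sphere O R ∪ {O, V, EuclideanGeometry.inversion O R V}) := by
  apply RationallyApproximable.of_close
  intro ε hε
  set D := dist V O with hD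
  have hD0 : 0 < D := hR.trans hV
  obtain ⟨r, hr1, hr2⟩ := exists_rat_btwn
    (show 2 * R < min (2 * R + 2 * (ε / 3)) (min (2 * D) (4 * R)) by
      refine lt_min (by linarith) (lt_min (by linarith) (by linarith)))
  have hr3 : (r : ℝ) < 2 * R + 2 * (ε / 3) := hr2.trans_le (min_le_left _ _)
  have hr4 : (r : ℝ) < 2 * D := hr2.trans_le ((min_le_right _ _).trans (min_le_left _ _))
  have hr5 : (r : ℝ) < 4 * R := hr2.trans_le ((min_le_right _ _).trans (min_le_right _ _))
  have hr0' : (0 : ℝ) < r := by linarith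
  have hr0 : 0 < r := by exact_mod_cast hr0'
  set τ := 2 * D / r with hτ
  have hτ1 : 1 < τ := by rw [hτ, one_lt_div hr0']; exact hr4
  have hτ2 : 0 < τ ^ 2 - 1 := by nlinarith
  set a := 2 / Real.sqrt (τ ^ 2 - 1) with ha
  have hs : 0 < Real.sqrt (τ ^ 2 - 1) := Real.sqrt_pos.2 hτ2
  have hss : Real.sqrt (τ ^ 2 - 1) ^ 2 = τ ^ 2 - 1 := Real.sq_sqrt hτ2.le
  have ha0 : 0 < a := by positivity
  have ha2 : 1 / a ^ 2 = (τ ^ 2 - 1) / 4 := by
    rw [ha, div_pow, hss]
    field_simp
    norm_num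
  set z1 : ℂ := ⟨1 / a, 1 / 2⟩ with hz1
  have hz1n : ‖z1‖ = τ / 2 := by
    have h1 : ‖z1‖ ^ 2 = (τ / 2) ^ 2 := by
      rw [← Complex.normSq_eq_norm_sq, Complex.normSq_apply]
      simp only [hz1]
      have : 1 / a * (1 / a) = 1 / a ^ 2 := by field_simp
      rw [this, ha2]
      ring
    exact (pow_left_inj₀ (norm_nonneg _) (by positivity) two_ne_zero).1 h1
  have hz10 : z1 ≠ 0 := by
    intro h
    rw [h, norm_zero] at hz1n
    linarith
  have hrC : (r : ℂ) ≠ 0 := by exact_mod_cast hr0.ne'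
  have hnr : ‖(r : ℂ)‖ = r := by
    have : (r : ℂ) = ((r : ℝ) : ℂ) := by simp
    rw [this, Complex.norm_real, Real.norm_of_nonneg hr0'.le]
  have hVO : ‖V - O‖ = D := by rw [hD, dist_eq_norm]
  set ω : ℂ := (V - O) / (r * z1) with hω
  have hω1 : ‖ω‖ = 1 := by
    rw [hω, norm_div, norm_mul, hnr, hz1n, hVO, hτ]
    field_simp
  have hω0 : ω ≠ 0 := by
    intro h
    rw [h, norm_zero] at hω1
    exact zero_ne_one hω1
  have hωz : (r : ℂ) * ω * z1 = V - O := by
    rw [hω]
    field_simp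
  set C0 : ℂ := ⟨0, 1 / 2⟩ with hC0
  have hcirc := (circle0 ha0).image_sim (f := fun z : ℂ => O + r * ω * (z - C0)) hr0 (by
    intro z w
    have h1 : O + r * ω * (z - C0) - (O + r * ω * (w - C0)) = r * ω * (z - w) := by ring
    rw [dist_eq_norm, dist_eq_norm, h1, norm_mul, norm_mul, hnr, hω1, mul_one])
  refine ⟨_, hcirc, ?_⟩
  rintro p (hp | rfl | rfl | hp)
  · have hp' : ‖p - O‖ = R := by
      have : dist p O = R := hp
      rwa [dist_eq_norm] at this
    set t : ℝ := (r : ℝ) / (2 * R) with ht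
    refine ⟨O + t * (p - O), ⟨C0 + t * (p - O) / (r * ω), Or.inl ?_, ?_⟩, ?_⟩
    · have h1 : ‖(t : ℂ) * (p - O) / (r * ω)‖ = 1 / 2 := by
        rw [norm_div, norm_mul, norm_mul, hnr, hω1, hp', Complex.norm_real,
          Real.norm_of_nonneg (by positivity), ht]
        field_simp
      have h2 : ‖(t : ℂ) * (p - O) / (r * ω)‖ ^ 2 = 1 / 4 := by rw [h1]; norm_num
      rw [← Complex.normSq_eq_norm_sq, Complex.normSq_apply] at h2
      have h3 : ∀ w : ℂ, (C0 + w).re = w.re ∧ (C0 + w).im = 1 / 2 + w.im := by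
        intro w
        simp [hC0]
      show (C0 + _).re ^ 2 + ((C0 + _).im - 1 / 2) ^ 2 = 1 / 4
      rw [(h3 _).1, (h3 _).2]
      linear_combination h2
    · show O + r * ω * (C0 + t * (p - O) / (r * ω) - C0) = O + t * (p - O)
      field_simp
      ring
    · have h1 : p - (O + t * (p - O)) = ((1 - t : ℝ) : ℂ) * (p - O) := by
        push_cast
        ring
      rw [dist_eq_norm, h1, norm_mul, hp', Complex.norm_real, Real.norm_eq_abs]
      have h2 : |1 - t| * R = |(1 - t) * R| := by rw [abs_mul, abs_of_pos hR]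
      have h3 : (1 - t) * R = R - r / 2 := by
        rw [ht]
        field_simp
      rw [h2, h3, abs_lt]
      constructor <;> linarith
  · refine ⟨p, ⟨C0, Or.inr (Or.inl rfl), ?_⟩, by simpa using hε⟩
    show p + r * ω * (C0 - C0) = p
    ring
  · refine ⟨p, ⟨⟨1 / a, 1⟩, Or.inr (Or.inr (Or.inl rfl)), ?_⟩, by simpa using hε⟩
    have h1 : (⟨1 / a, 1⟩ : ℂ) - C0 = z1 := by
      apply Complex.ext
      · simp [hC0, hz1]
      · simp [hC0, hz1]
        norm_num
    show O + r * ω * ((⟨1 / a, 1⟩ : ℂ) - C0) = p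
    rw [h1, hωz]
    ring
  · have hp' : p = EuclideanGeometry.inversion O R V := hp
    subst hp'
    refine ⟨_, ⟨⟨a / (a ^ 2 + 4), 1 - 2 / (a ^ 2 + 4)⟩, Or.inr (Or.inr (Or.inr rfl)), rfl⟩, ?_⟩
    have h0 : a ^ 2 / (a ^ 2 + 4) = 1 / τ ^ 2 := by
      have h4 : a ^ 2 * (τ ^ 2 - 1) = 4 := by
        have := ha2
        field_simp at this
        linarith
      have h5 : τ ^ 2 ≠ 0 := by positivity
      rw [div_eq_div_iff (by positivity) h5]
      linarith
    have h1 : (⟨a / (a ^ 2 + 4), 1 - 2 / (a ^ 2 + 4)⟩ : ℂ) - C0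
        = ((1 / τ ^ 2 : ℝ) : ℂ) * z1 := by
      rw [← h0]
      apply Complex.ext
      · rw [Complex.re_ofReal_mul]
        simp only [Complex.sub_re, hC0, hz1]
        field_simp
        ring
      · rw [Complex.im_ofReal_mul]
        simp only [Complex.sub_im, hC0, hz1]
        field_simp
        ring
    have h2 : O + r * ω * ((⟨a / (a ^ 2 + 4), 1 - 2 / (a ^ 2 + 4)⟩ : ℂ) - C0)
        = O + ((1 / τ ^ 2 : ℝ) : ℂ) * (V - O) := by
      rw [h1, ← hωz]
      ring
    show dist (EuclideanGeometry.inversion O R V)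
      (O + r * ω * ((⟨a / (a ^ 2 + 4), 1 - 2 / (a ^ 2 + 4)⟩ : ℂ) - C0)) < ε
    rw [h2, EuclideanGeometry.inversion, dist_eq_norm, ← hD]
    have h3 : ((R / D) ^ 2 • (V -ᵥ O) +ᵥ O) - (O + ((1 / τ ^ 2 : ℝ) : ℂ) * (V - O))
        = (((R / D) ^ 2 - 1 / τ ^ 2 : ℝ) : ℂ) * (V - O) := by
      rw [vsub_eq_sub, vadd_eq_add, Complex.real_smul]
      push_cast
      ring
    rw [h3, norm_mul, hVO, Complex.norm_real, Real.norm_eq_abs]
    have h4 : |(R / D) ^ 2 - 1 / τ ^ 2| * D = |((R / D) ^ 2 - 1 / τ ^ 2) * D| := by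
      rw [abs_mul, abs_of_pos hD0]
    have h5 : ((R / D) ^ 2 - 1 / τ ^ 2) * D = -((r / 2 - R) * ((R + r / 2) / D)) := by
      rw [hτ]
      field_simp
      ring
    have h6 : (R + r / 2) / D ≤ 3 := by
      rw [div_le_iff₀ hD0]
      linarith
    have h7 : 0 < (R + r / 2) / D := by positivity
    rw [h4, h5, abs_neg, abs_of_nonneg (mul_nonneg (by linarith) h7.le)]
    calc (r / 2 - R) * ((R + r / 2) / D) ≤ (r / 2 - R) * 3 :=
          mul_le_mul_of_nonneg_left h6 (by linarith)
      _ < ε := by linarith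

theorem circle2 (O V : ℂ) {R : ℝ} (hR : 0 < R) :
    RationallyApproximable (Metric.sphere O R ∪ {O, V, EuclideanGeometry.inversion O R V}) := by
  have base : RationallyApproximable (Metric.sphere O R ∪ {O}) := by
    refine (circle1 (O := O) (V := O + (2 * R : ℝ)) hR ?_).mono ?_
    · rw [dist_eq_norm, add_sub_cancel_left, Complex.norm_real, Real.norm_of_nonneg (by positivity)]
      linarith
    · rintro x (hx | rfl)
      · exact Or.inl hx
      · exact Or.inr (Or.inl rfl)
  rcases lt_trichotomy (dist V O) R with h | h | h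
  · by_cases hVO : V = O
    · refine base.mono ?_
      rw [hVO, EuclideanGeometry.inversion_self]
      rintro x (hx | rfl | rfl | hx)
      · exact Or.inl hx
      · exact Or.inr rfl
      · exact Or.inr rfl
      · exact Or.inr hx
    · have hD : 0 < dist V O := dist_pos.2 hVO
      have h1 : R < dist (EuclideanGeometry.inversion O R V) O := by
        rw [EuclideanGeometry.dist_inversion_center, lt_div_iff₀ hD]
        nlinarith
      refine (circle1 hR h1).mono ?_
      rw [EuclideanGeometry.inversion_inversion O hR.ne' V]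
      rintro x (hx | rfl | rfl | hx)
      · exact Or.inl hx
      · exact Or.inr (Or.inl rfl)
      · exact Or.inr (Or.inr (Or.inr rfl))
      · exact Or.inr (Or.inr (Or.inl hx))
  · refine base.mono ?_
    have hV : V ∈ Metric.sphere O R := h
    rw [EuclideanGeometry.inversion_of_mem_sphere hV]
    rintro x (hx | rfl | rfl | hx)
    · exact Or.inl hx
    · exact Or.inr rfl
    · exact Or.inl hV
    · have : x = V := hx
      rw [this]
      exact Or.inl hV
  · exact circle1 hR h

theorem circle_E2 (O V : EuclideanSpace ℝ (Fin 2)) {R : ℝ} (hR : 0 < R) :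
    RationallyApproximable (Metric.sphere O R ∪ {O, V, EuclideanGeometry.inversion O R V}) := by
  set Φ : ℂ ≃ₗᵢ[ℝ] EuclideanSpace ℝ (Fin 2) := Complex.orthonormalBasisOneI.repr with hΦ
  have h := (circle2 (Φ.symm O) (Φ.symm V) hR).image_sim (f := Φ) (r := 1) one_pos
    (by intro x y; simp)
  refine h.mono ?_
  rintro x (hx | rfl | rfl | hx)
  · refine ⟨Φ.symm x, Or.inl ?_, by simp⟩
    have hx' : dist x O = R := hx
    show dist (Φ.symm x) (Φ.symm O) = R
    rw [LinearIsometryEquiv.dist_map, hx']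
  · exact ⟨Φ.symm x, Or.inr (Or.inl rfl), by simp⟩
  · exact ⟨Φ.symm x, Or.inr (Or.inr (Or.inl rfl)), by simp⟩
  · refine ⟨_, Or.inr (Or.inr (Or.inr rfl)), ?_⟩
    have hx' : x = EuclideanGeometry.inversion O R V := hx
    rw [hx', EuclideanGeometry.inversion, EuclideanGeometry.inversion, LinearIsometryEquiv.dist_map]
    simp only [vsub_eq_sub, vadd_eq_add, map_add, map_smul, map_sub,
      LinearIsometryEquiv.apply_symm_apply]

end

end Pool.Agent.RatApprox
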