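import Pool.Agent.RatApprox.Plane

/-!
The circle theorem: first for one circle of the complex plane, then for any circle of the
Euclidean plane.
-/

set_option autoImplicit false

namespace Pool.Agent.RatApprox

open Filter Topology Complex ComplexConjugate EuclideanGeometry

noncomputable section

lemma RationalSet.subset {E : Type*} [PseudoMetricSpace E] {S T : Set E} (h : RationalSet T)
    (hST : S ⊆ T) : RationalSet S := fun x hx y hy => h x (hST hx) y (hST hy)

/-- the inversion of radius one about a point of a rational set -/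
lemma rationalSet_inversion {S : Set ℂ} (h : RationalSet S) {c : ℂ} (hc : c ∈ S) :
    RationalSet (Insert.insert c (EuclideanGeometry.inversion c 1 '' (S \ {c}))) := by
  refine RationalSet.insert ?_ ?_
  · rintro _ ⟨x, ⟨hx, hxc⟩, rfl⟩ _ ⟨y, ⟨hy, hyc⟩, rfl⟩
    obtain ⟨q1, h1⟩ := h x hx c hc
    obtain ⟨q2, h2⟩ := h y hy c hc
    obtain ⟨q3, h3⟩ := h x hx y hy
    refine ⟨1 / (q1 * q2) * q3, ?_⟩
    rw [EuclideanGeometry.dist_inversion_inversion hxc hyc, h1, h2, h3]
    push_cast
    ring
  · rintro _ ⟨x, ⟨hx, hxc⟩, rfl⟩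
    obtain ⟨q1, h1⟩ := h c hc x hx
    refine ⟨1 / q1, ?_⟩
    rw [EuclideanGeometry.dist_center_inversion, h1]
    push_cast
    ring

lemma inv_formula (z : ℂ) : EuclideanGeometry.inversion I 1 z =
    ⟨z.re / (z.re ^ 2 + (z.im - 1) ^ 2), 1 + (z.im - 1) / (z.re ^ 2 + (z.im - 1) ^ 2)⟩ := by
  have h1 : (1 / dist z I) ^ 2 = 1 / (z.re ^ 2 + (z.im - 1) ^ 2) := by
    rw [Complex.dist_eq_re_im]
    simp only [I_re, sub_zero, I_im, div_pow, one_pow]
    rw [Real.sq_sqrt (by positivity)]
  simp only [EuclideanGeometry.inversion, h1, vsub_eq_sub, vadd_eq_add]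
  apply Complex.ext
  · simp only [Complex.add_re, Complex.smul_re, Complex.sub_re, I_re, smul_eq_mul]
    ring
  · simp only [Complex.add_im, Complex.smul_im, Complex.sub_im, I_im, smul_eq_mul]
    ring

lemma inv_close {z : ℂ} (hz : z ≠ I) {ε : ℝ} (hε : 0 < ε) : ∃ δ : ℝ, 0 < δ ∧
    ∀ w : ℂ, dist w z < δ → dist (EuclideanGeometry.inversion I 1 w)
      (EuclideanGeometry.inversion I 1 z) < ε := by
  have h : ContinuousAt (fun w : ℂ => EuclideanGeometry.inversion I 1 w) z :=
    ContinuousAt.inversion continuousAt_const continuousAt_const continuousAt_id hz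
  obtain ⟨δ, hδ, h1⟩ := Metric.continuousAt_iff.1 h ε hε
  exact ⟨δ, hδ, fun w hw => h1 hw⟩

theorem circle0 {a : ℝ} (ha : 0 < a) :
    RationallyApproximable ({z : ℂ | z.re ^ 2 + (z.im - 1 / 2) ^ 2 = 1 / 4} ∪
      {(⟨0, 1 / 2⟩ : ℂ), ⟨1 / a, 1⟩, ⟨a / (a ^ 2 + 4), 1 - 2 / (a ^ 2 + 4)⟩}) := by
  intro ε hε
  have hz1 : (⟨a, 1⟩ : ℂ) ≠ I := fun h => ha.ne' (by simpa using congrArg Complex.re h)
  have hz2 : (⟨a, -1⟩ : ℂ) ≠ I := fun h => ha.ne' (by simpa using congrArg Complex.re h)
  obtain ⟨δ1, hδ1, c1⟩ := inv_close hz1 hε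
  obtain ⟨δ2, hδ2, c2⟩ := inv_close hz2 hε
  have hδ : 0 < min δ1 δ2 / 2 := by positivity
  obtain ⟨a', b', h1, h2, h3, h4, h5, h6, h7⟩ := exists_params ha one_pos hδ
  have ha' : (0 : ℝ) < a' := by exact_mod_cast h3
  refine ⟨_, rationalSet_inversion (modelSet_rational h5 h6) (c := I) (Or.inl rfl), ?_⟩
  rintro z (hz | rfl | rfl | hz)
  · by_cases hzI : z = I
    · exact ⟨I, Or.inl rfl, by rw [hzI]; simpa using hε⟩
    · have hz' : z.re ^ 2 + (z.im - 1 / 2) ^ 2 = 1 / 4 := hz
      have hz'' : z.re ^ 2 + z.im ^ 2 = z.im := by linear_combination hz'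
      have him : 1 - z.im ≠ 0 := by
        intro h
        have h8 : z.im = 1 := by linarith
        rw [h8] at hz''
        have h9 : z.re = 0 := by
          have : z.re ^ 2 = 0 := by linarith
          exact pow_eq_zero_iff two_ne_zero |>.1 this
        exact hzI (Complex.ext (by simp [h9]) (by simp [h8]))
      set x : ℝ := z.re / (1 - z.im) with hx
      have hxz : EuclideanGeometry.inversion I 1 (x : ℂ) = z := by
        rw [inv_formula]
        have hx2 : x ^ 2 + 1 = 1 / (1 - z.im) := by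
          rw [hx]
          field_simp
          linear_combination hz''
        have hx3 : ((x : ℂ).re ^ 2 + ((x : ℂ).im - 1) ^ 2) = 1 / (1 - z.im) := by
          rw [← hx2]; simp
        rw [hx3]
        apply Complex.ext
        · simp only [ofReal_re]
          rw [hx]
          field_simp
        · simp only [ofReal_im]
          field_simp
          ring
      have hxI : (x : ℂ) ≠ I := fun h => by simpa using congrArg Complex.im h
      obtain ⟨δ, hδ', c⟩ := inv_close hxI hε
      obtain ⟨y, hy, hy1, hy2⟩ := h7 x δ hδ'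
      refine ⟨EuclideanGeometry.inversion I 1 (y : ℂ), Or.inr ⟨(y : ℂ),
        ⟨Or.inr (Or.inr (Or.inr (Or.inr ⟨y, rfl, hy1, hy2⟩))), ?_⟩, rfl⟩, ?_⟩
      · intro h
        simpa using congrArg Complex.im h
      · rw [dist_comm, ← hxz]
        apply c
        rw [Complex.dist_eq_re_im]
        simp only [Complex.ratCast_re, ofReal_re, Complex.ratCast_im, ofReal_im, sub_self]
        rw [show ((y : ℝ) - x) ^ 2 + 0 ^ 2 = ((y : ℝ) - x) ^ 2 by ring, Real.sqrt_sq_eq_abs]
        exact hy
  · refine ⟨EuclideanGeometry.inversion I 1 (-I), Or.inr ⟨-I, ⟨Or.inr (Or.inl rfl), ?_⟩, rfl⟩, ?_⟩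
    · intro h
      have := congrArg Complex.im h
      simp at this
      linarith
    · rw [inv_formula]
      have : (⟨0, 1 / 2⟩ : ℂ) = ⟨(-I).re / ((-I).re ^ 2 + ((-I).im - 1) ^ 2),
          1 + ((-I).im - 1) / ((-I).re ^ 2 + ((-I).im - 1) ^ 2)⟩ := by
        apply Complex.ext
        · simp
        · simp
          norm_num
      rw [← this]
      simpa using hε
  · refine ⟨EuclideanGeometry.inversion I 1 ((a' : ℂ) + b' * I), Or.inr ⟨_,
      ⟨Or.inr (Or.inr (Or.inl rfl)), ?_⟩, rfl⟩, ?_⟩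
    · intro h
      have := congrArg Complex.re h
      simp at this
      linarith
    · have h8 : EuclideanGeometry.inversion I 1 (⟨a, 1⟩ : ℂ) = ⟨1 / a, 1⟩ := by
        rw [inv_formula]
        apply Complex.ext
        · simp
          field_simp
        · simp
      rw [dist_comm, ← h8]
      apply c1
      rw [dist_eq_norm]
      refine lt_of_le_of_lt (Complex.norm_le_abs_re_add_abs_im _) ?_
      simp
      have := min_le_left δ1 δ2
      linarith
  · have hz' : z = ⟨a / (a ^ 2 + 4), 1 - 2 / (a ^ 2 + 4)⟩ := hz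
    subst hz'
    refine ⟨EuclideanGeometry.inversion I 1 ((a' : ℂ) - b' * I), Or.inr ⟨_,
      ⟨Or.inr (Or.inr (Or.inr (Or.inl rfl))), ?_⟩, rfl⟩, ?_⟩
    · intro h
      have := congrArg Complex.re h
      simp at this
      linarith
    · have h8 : EuclideanGeometry.inversion I 1 (⟨a, -1⟩ : ℂ)
          = ⟨a / (a ^ 2 + 4), 1 - 2 / (a ^ 2 + 4)⟩ := by
        rw [inv_formula]
        apply Complex.ext
        · norm_num
        · norm_num
          ring
      rw [dist_comm, ← h8]
      apply c2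
      rw [dist_eq_norm]
      refine lt_of_le_of_lt (Complex.norm_le_abs_re_add_abs_im _) ?_
      simp
      rw [← abs_neg (-(b' : ℝ) + 1)]
      have h9 : -(-(b' : ℝ) + 1) = b' - 1 := by ring
      rw [h9]
      have := min_le_right δ1 δ2
      linarith

end

end Pool.Agent.RatApprox
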