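import Mathlib

/-!
Rational sets and rationally approximable sets in a metric space.
-/

set_option autoImplicit false

namespace Pool.Agent.RatApprox

/-- A set is rational if all distances between its points are rational numbers. -/
def RationalSet {E : Type*} [PseudoMetricSpace E] (X : Set E) : Prop :=
  ∀ x ∈ X, ∀ y ∈ X, ∃ q : ℚ, dist x y = (q : ℝ)

/-- A set `P` is rationally approximable if for every `ε > 0` there is a rational set `X` such
that every point of `P` lies within distance `ε` of some point of `X`. -/
def RationallyApproximable {E : Type*} [PseudoMetricSpace E] (P : Set E) : Prop :=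
  ∀ ε : ℝ, 0 < ε → ∃ X : Set E, RationalSet X ∧ ∀ p ∈ P, ∃ x ∈ X, dist p x < ε

end Pool.Agent.RatApprox
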