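import Mathlib

/-!
Real Jacobi functions with parameter `k` (that is, `k = modulus ^ 2`, `0 ≤ k < 1`), and their
addition theorem.
-/

set_option autoImplicit false

namespace Pool.Agent.RatApprox

open Real MeasureTheory intervalIntegral Filter Topology

noncomputable section

lemma rad_pos {k : ℝ} (h0 : 0 ≤ k) (h1 : k < 1) (x : ℝ) : 0 < 1 - k * Real.sin x ^ 2 := by
  have h := Real.sin_sq_le_one x
  have h' := sq_nonneg (Real.sin x)
  nlinarith

lemma rad_le {k : ℝ} (h0 : 0 ≤ k) (x : ℝ) : 1 - k * Real.sin x ^ 2 ≤ 1 := by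
  have h' := sq_nonneg (Real.sin x)
  nlinarith

/-- The integrand of the elliptic integral of the first kind. -/
def ww (k x : ℝ) : ℝ := (Real.sqrt (1 - k * Real.sin x ^ 2))⁻¹

lemma ww_cont {k : ℝ} (h0 : 0 ≤ k) (h1 : k < 1) : Continuous (ww k) := by
  unfold ww
  refine Continuous.inv₀ (by fun_prop) ?_
  intro x
  exact (Real.sqrt_pos.2 (rad_pos h0 h1 x)).ne'

lemma one_le_ww {k : ℝ} (h0 : 0 ≤ k) (h1 : k < 1) (x : ℝ) : 1 ≤ ww k x := by
  unfold ww
  rw [one_le_inv₀ (Real.sqrt_pos.2 (rad_pos h0 h1 x))]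
  exact Real.sqrt_le_one.2 (rad_le h0 x)

lemma ww_periodic (k : ℝ) : Function.Periodic (ww k) (2 * π) := by
  intro x
  simp [ww, Real.sin_add_two_pi]

/-- The elliptic integral of the first kind. -/
def EF (k x : ℝ) : ℝ := ∫ t in (0 : ℝ)..x, ww k t

lemma EF_zero (k : ℝ) : EF k 0 = 0 := by simp [EF]

lemma EF_deriv {k : ℝ} (h0 : 0 ≤ k) (h1 : k < 1) (x : ℝ) : HasDerivAt (EF k) (ww k x) x :=
  ((ww_cont h0 h1).integral_hasStrictDerivAt 0 x).hasDerivAt

lemma EF_cont {k : ℝ} (h0 : 0 ≤ k) (h1 : k < 1) : Continuous (EF k) :=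
  continuous_iff_continuousAt.2 fun x => (EF_deriv h0 h1 x).continuousAt

lemma EF_strictMono {k : ℝ} (h0 : 0 ≤ k) (h1 : k < 1) : StrictMono (EF k) := by
  apply strictMono_of_deriv_pos
  intro x
  rw [(EF_deriv h0 h1 x).deriv]
  exact lt_of_lt_of_le one_pos (one_le_ww h0 h1 x)

lemma EF_sub_mono {k : ℝ} (h0 : 0 ≤ k) (h1 : k < 1) : Monotone (fun x => EF k x - x) := by
  apply monotone_of_deriv_nonneg
  · intro x
    exact ((EF_deriv h0 h1 x).sub (hasDerivAt_id x)).differentiableAt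
  · intro x
    have h := ((EF_deriv h0 h1 x).sub (hasDerivAt_id x)).deriv
    have h2 : deriv (fun x => EF k x - x) x = ww k x - 1 := h
    rw [h2]
    linarith [one_le_ww h0 h1 x]

lemma EF_ge {k : ℝ} (h0 : 0 ≤ k) (h1 : k < 1) {x : ℝ} (hx : 0 ≤ x) : x ≤ EF k x := by
  have := EF_sub_mono h0 h1 hx
  simp only [EF_zero] at this
  linarith

lemma EF_le {k : ℝ} (h0 : 0 ≤ k) (h1 : k < 1) {x : ℝ} (hx : x ≤ 0) : EF k x ≤ x := by
  have := EF_sub_mono h0 h1 hx
  simp only [EF_zero] at this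
  linarith

lemma EF_surj {k : ℝ} (h0 : 0 ≤ k) (h1 : k < 1) : Function.Surjective (EF k) := by
  apply (EF_cont h0 h1).surjective
  · apply tendsto_atTop_mono' _ _ tendsto_id
    filter_upwards [eventually_ge_atTop 0] with x hx
    exact EF_ge h0 h1 hx
  · apply tendsto_atBot_mono' _ _ tendsto_id
    filter_upwards [eventually_le_atBot 0] with x hx
    exact EF_le h0 h1 hx

lemma EF_add_period {k : ℝ} (h0 : 0 ≤ k) (h1 : k < 1) (x : ℝ) :
    EF k (x + 2 * π) = EF k x + EF k (2 * π) := by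
  unfold EF
  have hi : ∀ a b : ℝ, IntervalIntegrable (ww k) volume a b :=
    fun a b => (ww_cont h0 h1).intervalIntegrable a b
  rw [← intervalIntegral.integral_add_adjacent_intervals (hi 0 x) (hi x (x + 2 * π))]
  congr 1
  have := (ww_periodic k).intervalIntegral_add_eq x 0
  simpa using this

/-- The order isomorphism of the line given by the elliptic integral. -/
def EFiso {k : ℝ} (h0 : 0 ≤ k) (h1 : k < 1) : ℝ ≃o ℝ :=
  (EF_strictMono h0 h1).orderIsoOfSurjective (EF k) (EF_surj h0 h1)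

/-- The Jacobi amplitude. -/
def am {k : ℝ} (h0 : 0 ≤ k) (h1 : k < 1) (t : ℝ) : ℝ := (EFiso h0 h1).symm t

variable {k : ℝ} (h0 : 0 ≤ k) (h1 : k < 1)

lemma EF_am (t : ℝ) : EF k (am h0 h1 t) = t := (EFiso h0 h1).apply_symm_apply t

lemma am_EF (x : ℝ) : am h0 h1 (EF k x) = x := (EFiso h0 h1).symm_apply_apply x

lemma am_cont : Continuous (am h0 h1) := (EFiso h0 h1).symm.continuous

lemma am_zero : am h0 h1 0 = 0 := by
  have := am_EF h0 h1 0
  rwa [EF_zero] at this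

lemma am_deriv (t : ℝ) :
    HasDerivAt (am h0 h1) (Real.sqrt (1 - k * Real.sin (am h0 h1 t) ^ 2)) t := by
  have h := HasDerivAt.of_local_left_inverse (am_cont h0 h1).continuousAt
    (EF_deriv h0 h1 (am h0 h1 t)) (lt_of_lt_of_le one_pos (one_le_ww h0 h1 _)).ne'
    (Eventually.of_forall fun y => EF_am h0 h1 y)
  simpa [ww] using h

lemma am_add_period (t : ℝ) : am h0 h1 (t + EF k (2 * π)) = am h0 h1 t + 2 * π := by
  have h := EF_add_period h0 h1 (am h0 h1 t)
  rw [EF_am] at h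
  rw [← h, am_EF]

/-- Jacobi's `sn`. -/
def sn (t : ℝ) : ℝ := Real.sin (am h0 h1 t)
/-- Jacobi's `cn`. -/
def cn (t : ℝ) : ℝ := Real.cos (am h0 h1 t)
/-- Jacobi's `dn`. -/
def dn (t : ℝ) : ℝ := Real.sqrt (1 - k * Real.sin (am h0 h1 t) ^ 2)

lemma sn_sq (t : ℝ) : cn h0 h1 t ^ 2 = 1 - sn h0 h1 t ^ 2 := by
  have := Real.sin_sq_add_cos_sq (am h0 h1 t)
  simp only [sn, cn]; linarith

lemma dn_sq (t : ℝ) : dn h0 h1 t ^ 2 = 1 - k * sn h0 h1 t ^ 2 := by
  simp only [dn, sn]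
  exact Real.sq_sqrt (rad_pos h0 h1 _).le

lemma dn_pos (t : ℝ) : 0 < dn h0 h1 t := Real.sqrt_pos.2 (rad_pos h0 h1 _)

lemma sn_zero : sn h0 h1 0 = 0 := by simp [sn, am_zero]
lemma cn_zero : cn h0 h1 0 = 1 := by simp [cn, am_zero]
lemma dn_zero : dn h0 h1 0 = 1 := by simp [dn, am_zero]

lemma sn_deriv (t : ℝ) : HasDerivAt (sn h0 h1) (cn h0 h1 t * dn h0 h1 t) t :=
  (am_deriv h0 h1 t).sin

lemma cn_deriv (t : ℝ) : HasDerivAt (cn h0 h1) (-(sn h0 h1 t * dn h0 h1 t)) t := by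
  have h := (am_deriv h0 h1 t).cos
  have e : -(sn h0 h1 t * dn h0 h1 t)
      = -Real.sin (am h0 h1 t) * Real.sqrt (1 - k * Real.sin (am h0 h1 t) ^ 2) := by
    simp only [sn, dn]; ring
  rw [e]
  exact h

lemma dn_deriv (t : ℝ) : HasDerivAt (dn h0 h1) (-(k * sn h0 h1 t * cn h0 h1 t)) t := by
  have h := (((sn_deriv h0 h1 t).pow 2).const_mul k).const_sub 1
  have h2 := h.sqrt (rad_pos h0 h1 (am h0 h1 t)).ne'
  have hd := (dn_pos h0 h1 t).ne'
  have e : -(k * sn h0 h1 t * cn h0 h1 t)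
      = -(k * ((2 : ℕ) * sn h0 h1 t ^ (2 - 1) * (cn h0 h1 t * dn h0 h1 t)))
        / (2 * dn h0 h1 t) := by
    field_simp
    norm_num
    ring
  rw [e]
  exact h2

lemma sn_sq_le_one (t : ℝ) : sn h0 h1 t ^ 2 ≤ 1 := Real.sin_sq_le_one _

lemma den_pos (u v : ℝ) : 0 < 1 - k * sn h0 h1 u ^ 2 * sn h0 h1 v ^ 2 := by
  have hu := sn_sq_le_one h0 h1 u
  have hv := sn_sq_le_one h0 h1 v
  have hu' := sq_nonneg (sn h0 h1 u)
  have hv' := sq_nonneg (sn h0 h1 v)
  have : sn h0 h1 u ^ 2 * sn h0 h1 v ^ 2 ≤ 1 := by nlinarith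
  have h3 : 0 ≤ sn h0 h1 u ^ 2 * sn h0 h1 v ^ 2 := by positivity
  nlinarith

lemma sub_deriv {f : ℝ → ℝ} {f' c t : ℝ} (h : HasDerivAt f f' (c - t)) :
    HasDerivAt (fun t => f (c - t)) (-f') t := by
  have h2 := HasDerivAt.scomp t h ((hasDerivAt_id t).const_sub c)
  have h3 : HasDerivAt (fun t => f (c - t)) ((-1 : ℝ) • f') t := h2
  simpa using h3

lemma sn_deriv' (c t : ℝ) :
    HasDerivAt (fun t => sn h0 h1 (c - t)) (-(cn h0 h1 (c - t) * dn h0 h1 (c - t))) t :=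
  sub_deriv (sn_deriv h0 h1 (c - t))

lemma cn_deriv' (c t : ℝ) :
    HasDerivAt (fun t => cn h0 h1 (c - t)) (sn h0 h1 (c - t) * dn h0 h1 (c - t)) t := by
  have h := sub_deriv (cn_deriv h0 h1 (c - t))
  rwa [neg_neg] at h

lemma dn_deriv' (c t : ℝ) :
    HasDerivAt (fun t => dn h0 h1 (c - t)) (k * sn h0 h1 (c - t) * cn h0 h1 (c - t)) t := by
  have h := sub_deriv (dn_deriv h0 h1 (c - t))
  rwa [neg_neg] at h

lemma const_of_deriv_zero {f : ℝ → ℝ} (hf : ∀ t, HasDerivAt f 0 t)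
    (s t : ℝ) : f s = f t :=
  is_const_of_deriv_eq_zero (fun x => (hf x).differentiableAt)
    (fun x => (hf x).deriv) s t

/-- derivative of the product of three functions -/
lemma mul3_deriv {f g h : ℝ → ℝ} {f' g' h' t : ℝ} (hf : HasDerivAt f f' t)
    (hg : HasDerivAt g g' t) (hh : HasDerivAt h h' t) :
    HasDerivAt (fun t => f t * g t * h t)
      (f' * g t * h t + f t * g' * h t + f t * g t * h') t := by
  have h2 : HasDerivAt (fun t => f t * g t * h t)
    ((f' * g t + f t * g') * h t + f t * g t * h') t := (hf.mul hg).mul hh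
  exact h2.congr_deriv (by ring)

lemma mul2_deriv {f g : ℝ → ℝ} {f' g' t : ℝ} (hf : HasDerivAt f f' t)
    (hg : HasDerivAt g g' t) :
    HasDerivAt (fun t => f t * g t) (f' * g t + f t * g') t := hf.mul hg

/-- derivative of the denominator in the addition theorem -/
lemma den_deriv (c t : ℝ) :
    HasDerivAt (fun t => 1 - k * sn h0 h1 t ^ 2 * sn h0 h1 (c - t) ^ 2)
      (2 * k * sn h0 h1 t * sn h0 h1 (c - t) *
        (sn h0 h1 t * cn h0 h1 (c - t) * dn h0 h1 (c - t)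
          - sn h0 h1 (c - t) * cn h0 h1 t * dn h0 h1 t)) t := by
  have hp := mul2_deriv (sn_deriv h0 h1 t) (sn_deriv' h0 h1 c t)
  have hpp := mul2_deriv hp hp
  have h3 : HasDerivAt (fun t => 1 - k * ((sn h0 h1 t * sn h0 h1 (c - t)) *
    (sn h0 h1 t * sn h0 h1 (c - t)))) _ t := (hpp.const_mul k).const_sub 1
  have e : (fun t => 1 - k * ((sn h0 h1 t * sn h0 h1 (c - t)) *
    (sn h0 h1 t * sn h0 h1 (c - t)))) = fun t => 1 - k * sn h0 h1 t ^ 2 * sn h0 h1 (c - t) ^ 2 := by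
    funext t; ring
  rw [e] at h3
  exact h3.congr_deriv (by ring)

/-- quotient with vanishing derivative -/
lemma quot_deriv_zero {N D : ℝ → ℝ} {N' D' t : ℝ} (hN : HasDerivAt N N' t)
    (hD : HasDerivAt D D' t) (hne : D t ≠ 0) (h : N' * D t = N t * D') :
    HasDerivAt (fun t => N t / D t) 0 t := by
  have h2 : HasDerivAt (fun t => N t / D t) ((N' * D t - N t * D') / D t ^ 2) t := hN.div hD hne
  refine h2.congr_deriv ?_
  rw [h, sub_self, zero_div]

theorem sn_add (u v : ℝ) :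
    sn h0 h1 (u + v) * (1 - k * sn h0 h1 u ^ 2 * sn h0 h1 v ^ 2)
      = sn h0 h1 u * cn h0 h1 v * dn h0 h1 v + sn h0 h1 v * cn h0 h1 u * dn h0 h1 u := by
  set c := u + v with hc
  have hv : v = c - u := by rw [hc]; ring
  have key := const_of_deriv_zero
    (f := fun t => (sn h0 h1 t * cn h0 h1 (c - t) * dn h0 h1 (c - t)
        + sn h0 h1 (c - t) * cn h0 h1 t * dn h0 h1 t)
        / (1 - k * sn h0 h1 t ^ 2 * sn h0 h1 (c - t) ^ 2)) (fun t =>
      quot_deriv_zero (N := fun t => (sn h0 h1 t * cn h0 h1 (c - t) * dn h0 h1 (c - t)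
        + sn h0 h1 (c - t) * cn h0 h1 t * dn h0 h1 t))
        ((mul3_deriv (sn_deriv h0 h1 t) (cn_deriv' h0 h1 c t) (dn_deriv' h0 h1 c t)).add
        (mul3_deriv (sn_deriv' h0 h1 c t) (cn_deriv h0 h1 t) (dn_deriv h0 h1 t)))
        (den_deriv h0 h1 c t) (den_pos h0 h1 t (c - t)).ne' (by
          have a1 := sn_sq h0 h1 t
          have a2 := sn_sq h0 h1 (c - t)
          have b1 := dn_sq h0 h1 t
          have b2 := dn_sq h0 h1 (c - t)
          generalize sn h0 h1 t = s1 at *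
          generalize sn h0 h1 (c - t) = s2 at *
          generalize cn h0 h1 t = c1 at *
          generalize cn h0 h1 (c - t) = c2 at *
          generalize dn h0 h1 t = d1 at *
          generalize dn h0 h1 (c - t) = d2 at *
          have e1 : c1 * d1 * c2 * d2 + s1 * (s2 * d2) * d2 + s1 * c2 * (k * s2 * c2)
              + (-(c2 * d2) * c1 * d1 + s2 * -(s1 * d1) * d1 + s2 * c1 * -(k * s1 * c1))
              = 2 * k * s1 * s2 * (s1 ^ 2 - s2 ^ 2) := by
            linear_combination s1 * s2 * b2 + k * s1 * s2 * a2 - s1 * s2 * b1 - k * s1 * s2 * a1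
          have e2 : (s1 * c2 * d2 + s2 * c1 * d1) * (s1 * c2 * d2 - s2 * c1 * d1)
              = (s1 ^ 2 - s2 ^ 2) * (1 - k * s1 ^ 2 * s2 ^ 2) := by
            have e3 : (s1 * c2 * d2 + s2 * c1 * d1) * (s1 * c2 * d2 - s2 * c1 * d1)
              = s1 ^ 2 * c2 ^ 2 * d2 ^ 2 - s2 ^ 2 * c1 ^ 2 * d1 ^ 2 := by ring
            rw [e3, a1, a2, b1, b2]; ring
          calc _ = (2 * k * s1 * s2 * (s1 ^ 2 - s2 ^ 2)) * (1 - k * s1 ^ 2 * s2 ^ 2) := by
                rw [← e1]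
            _ = 2 * k * s1 * s2 * ((s1 ^ 2 - s2 ^ 2) * (1 - k * s1 ^ 2 * s2 ^ 2)) := by ring
            _ = _ := by rw [← e2]; ring)) u 0
  have hD := (den_pos h0 h1 u (c - u)).ne'
  simp only [sn_zero, cn_zero, dn_zero, sub_zero] at key
  rw [hv]
  rw [div_eq_iff hD] at key
  rw [key]
  ring

theorem cn_add (u v : ℝ) :
    cn h0 h1 (u + v) * (1 - k * sn h0 h1 u ^ 2 * sn h0 h1 v ^ 2)
      = cn h0 h1 u * cn h0 h1 v
        - sn h0 h1 u * sn h0 h1 v * (dn h0 h1 u * dn h0 h1 v) := by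
  set c := u + v with hc
  have hv : v = c - u := by rw [hc]; ring
  have key := const_of_deriv_zero
    (f := fun t => (cn h0 h1 t * cn h0 h1 (c - t)
        - sn h0 h1 t * sn h0 h1 (c - t) * (dn h0 h1 t * dn h0 h1 (c - t)))
        / (1 - k * sn h0 h1 t ^ 2 * sn h0 h1 (c - t) ^ 2)) (fun t =>
      quot_deriv_zero (N := fun t => (cn h0 h1 t * cn h0 h1 (c - t)
        - sn h0 h1 t * sn h0 h1 (c - t) * (dn h0 h1 t * dn h0 h1 (c - t))))
        ((mul2_deriv (cn_deriv h0 h1 t) (cn_deriv' h0 h1 c t)).sub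
        (mul3_deriv (sn_deriv h0 h1 t) (sn_deriv' h0 h1 c t)
          (mul2_deriv (dn_deriv h0 h1 t) (dn_deriv' h0 h1 c t))))
        (den_deriv h0 h1 c t) (den_pos h0 h1 t (c - t)).ne' (by
          have a1 := sn_sq h0 h1 t
          have a2 := sn_sq h0 h1 (c - t)
          have b1 := dn_sq h0 h1 t
          have b2 := dn_sq h0 h1 (c - t)
          generalize sn h0 h1 t = s1 at *
          generalize sn h0 h1 (c - t) = s2 at *
          generalize cn h0 h1 t = c1 at *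
          generalize cn h0 h1 (c - t) = c2 at *
          generalize dn h0 h1 t = d1 at *
          generalize dn h0 h1 (c - t) = d2 at *
          have e1 : -(s1 * d1) * c2 + c1 * (s2 * d2)
              - (c1 * d1 * s2 * (d1 * d2) + s1 * -(c2 * d2) * (d1 * d2)
                + s1 * s2 * (-(k * s1 * c1) * d2 + d1 * (k * s2 * c2)))
              = 2 * k * s1 * s2 * (s1 * c1 * d2 - s2 * c2 * d1) := by
            linear_combination s1 * c2 * d1 * b2 - c1 * s2 * d2 * b1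
          have e2 : (c1 * c2 - s1 * s2 * (d1 * d2)) * (s1 * c2 * d2 - s2 * c1 * d1)
              = (s1 * c1 * d2 - s2 * c2 * d1) * (1 - k * s1 ^ 2 * s2 ^ 2) := by
            linear_combination s1 * c1 * d2 * a2 + s1 * c1 * d2 * s2 ^ 2 * b1
              - s2 * c2 * d1 * a1 - s2 * c2 * d1 * s1 ^ 2 * b2
          calc _ = (2 * k * s1 * s2 * (s1 * c1 * d2 - s2 * c2 * d1))
                  * (1 - k * s1 ^ 2 * s2 ^ 2) := by rw [← e1]
            _ = 2 * k * s1 * s2 * ((s1 * c1 * d2 - s2 * c2 * d1) * (1 - k * s1 ^ 2 * s2 ^ 2)) := by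
                ring
            _ = _ := by rw [← e2]; ring)) u 0
  have hD := (den_pos h0 h1 u (c - u)).ne'
  simp only [sn_zero, cn_zero, dn_zero, sub_zero] at key
  rw [hv]
  rw [div_eq_iff hD] at key
  rw [key]
  ring

theorem dn_add (u v : ℝ) :
    dn h0 h1 (u + v) * (1 - k * sn h0 h1 u ^ 2 * sn h0 h1 v ^ 2)
      = dn h0 h1 u * dn h0 h1 v
        - sn h0 h1 u * sn h0 h1 v * (cn h0 h1 u * cn h0 h1 v) * k := by
  set c := u + v with hc
  have hv : v = c - u := by rw [hc]; ring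
  have key := const_of_deriv_zero
    (f := fun t => (dn h0 h1 t * dn h0 h1 (c - t)
        - sn h0 h1 t * sn h0 h1 (c - t) * (cn h0 h1 t * cn h0 h1 (c - t)) * k)
        / (1 - k * sn h0 h1 t ^ 2 * sn h0 h1 (c - t) ^ 2)) (fun t =>
      quot_deriv_zero (N := fun t => (dn h0 h1 t * dn h0 h1 (c - t)
        - sn h0 h1 t * sn h0 h1 (c - t) * (cn h0 h1 t * cn h0 h1 (c - t)) * k))
        ((mul2_deriv (dn_deriv h0 h1 t) (dn_deriv' h0 h1 c t)).sub
        ((mul3_deriv (sn_deriv h0 h1 t) (sn_deriv' h0 h1 c t)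
          (mul2_deriv (cn_deriv h0 h1 t) (cn_deriv' h0 h1 c t))).mul_const k))
        (den_deriv h0 h1 c t) (den_pos h0 h1 t (c - t)).ne' (by
          have a1 := sn_sq h0 h1 t
          have a2 := sn_sq h0 h1 (c - t)
          have b1 := dn_sq h0 h1 t
          have b2 := dn_sq h0 h1 (c - t)
          generalize sn h0 h1 t = s1 at *
          generalize sn h0 h1 (c - t) = s2 at *
          generalize cn h0 h1 t = c1 at *
          generalize cn h0 h1 (c - t) = c2 at *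
          generalize dn h0 h1 t = d1 at *
          generalize dn h0 h1 (c - t) = d2 at *
          have e1 : -(k * s1 * c1) * d2 + d1 * (k * s2 * c2)
              - (c1 * d1 * s2 * (c1 * c2) + s1 * -(c2 * d2) * (c1 * c2)
                + s1 * s2 * (-(s1 * d1) * c2 + c1 * (s2 * d2))) * k
              = 2 * k * s1 * s2 * (s1 * c2 * d1 - s2 * c1 * d2) := by
            linear_combination k * s1 * c1 * d2 * a2 - k * s2 * c2 * d1 * a1
          have e2 : (d1 * d2 - s1 * s2 * (c1 * c2) * k) * (s1 * c2 * d2 - s2 * c1 * d1)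
              = (s1 * c2 * d1 - s2 * c1 * d2) * (1 - k * s1 ^ 2 * s2 ^ 2) := by
            linear_combination s1 * c2 * d1 * b2 + s1 * c2 * d1 * k * s2 ^ 2 * a1
              - s2 * c1 * d2 * b1 - s2 * c1 * d2 * k * s1 ^ 2 * a2
          calc _ = (2 * k * s1 * s2 * (s1 * c2 * d1 - s2 * c1 * d2))
                  * (1 - k * s1 ^ 2 * s2 ^ 2) := by rw [← e1]
            _ = 2 * k * s1 * s2 * ((s1 * c2 * d1 - s2 * c1 * d2) * (1 - k * s1 ^ 2 * s2 ^ 2)) := by
                ring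
            _ = _ := by rw [← e2]; ring)) u 0
  have hD := (den_pos h0 h1 u (c - u)).ne'
  simp only [sn_zero, cn_zero, dn_zero, sub_zero] at key
  rw [hv]
  rw [div_eq_iff hD] at key
  rw [key]
  ring

lemma sn_add_period (t : ℝ) : sn h0 h1 (t + EF k (2 * π)) = sn h0 h1 t := by
  simp [sn, am_add_period, Real.sin_add_two_pi]

end

end Pool.Agent.RatApprox
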