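import Pool.Agent.RatApprox.LineAlg

/-!
Density of the rational points `x` of a line at rational distance from two further points.
-/

set_option autoImplicit false

namespace Pool.Agent.RatApprox

open Real Filter Topology

noncomputable section

lemma cont_sn {k : ℝ} (h0 : 0 ≤ k) (h1 : k < 1) : Continuous (sn h0 h1) :=
  Real.continuous_sin.comp (am_cont h0 h1)
lemma cont_cn {k : ℝ} (h0 : 0 ≤ k) (h1 : k < 1) : Continuous (cn h0 h1) :=
  Real.continuous_cos.comp (am_cont h0 h1)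
lemma cont_dn {k : ℝ} (h0 : 0 ≤ k) (h1 : k < 1) : Continuous (dn h0 h1) :=
  continuous_iff_continuousAt.2 fun t => (dn_deriv h0 h1 t).continuousAt

theorem line_dense {m n a k s0 c0 d0 : ℚ} (hn : 0 < n) (hnm : n < m)
    (ha2 : m ^ 2 + n ^ 2 = 1 + a ^ 2 + (m * n) ^ 2) (hkk : k * m ^ 2 = m ^ 2 - n ^ 2)
    (hg : Good k s0 c0 d0) (hd0 : 0 < d0) (x : ℝ) {ε : ℝ} (hε : 0 < ε) :
    ∃ y : ℚ, |(y : ℝ) - x| < ε ∧ (∃ u : ℚ, y ^ 2 + 1 = u ^ 2) ∧
      (∃ v : ℚ, (y - a) ^ 2 + (m * n) ^ 2 = v ^ 2) := by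
  have hm : 0 < m := hn.trans hnm
  have hm2 : 0 < m ^ 2 := by positivity
  have hk0 : 0 ≤ k := by
    by_contra h
    push Not at h
    have h1 : k * m ^ 2 < 0 := mul_neg_of_neg_of_pos h hm2
    nlinarith
  have hk1 : k < 1 := by
    by_contra h
    push Not at h
    have h1 : 1 * m ^ 2 ≤ k * m ^ 2 := mul_le_mul_of_nonneg_right h hm2.le
    nlinarith [pow_pos hn 2]
  have h0 : (0 : ℝ) ≤ (k : ℝ) := by exact_mod_cast hk0
  have h1 : (k : ℝ) < 1 := by exact_mod_cast hk1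
  have hkQ : (k : ℝ) ∈ QF := cast_mem_QF k
  obtain ⟨t0, hs0, hc0, hd0'⟩ := exists_param h0 h1 (s := (s0 : ℝ)) (c := (c0 : ℝ)) (d := (d0 : ℝ))
    (by exact_mod_cast hg.hc) (by exact_mod_cast hg.hd) (by exact_mod_cast hd0)
  have hdense := RT_dense h0 h1 hkQ rfl hg hs0 hc0 hd0'
  obtain ⟨s, c, d, hu, hx⟩ := exists_upper (m := (m : ℝ)) (n := (n : ℝ)) (a := (a : ℝ))
    (k := (k : ℝ)) (by exact_mod_cast hn) (by exact_mod_cast hnm) (by exact_mod_cast ha2)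
    (by exact_mod_cast hkk) x
  obtain ⟨t1, hs1, hc1, hd1⟩ := exists_param h0 h1 hu.hsc hu.hd hu.hd0
  have hmr : (0 : ℝ) < (m : ℝ) := by exact_mod_cast hm
  have hnr : (0 : ℝ) < (n : ℝ) := by exact_mod_cast hn
  have hXpos := hu.X_pos h1 hmr
  -- continuity
  have hcont : ContinuousAt (fun t => xval (a : ℝ) ((m : ℝ) * n)
      (Xv (m : ℝ) (cn h0 h1 t) (dn h0 h1 t)) (Rv (m : ℝ) (sn h0 h1 t) (dn h0 h1 t))) t1 := by
    have hX : ContinuousAt (fun t => Xv (m : ℝ) (cn h0 h1 t) (dn h0 h1 t)) t1 := by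
      unfold Xv
      refine ContinuousAt.div ?_ ?_ ?_
      · exact (continuous_const.mul ((cont_dn h0 h1).add (cont_cn h0 h1))).continuousAt
      · exact (continuous_const.sub (cont_cn h0 h1)).continuousAt
      · rw [hc1]; linarith [hu.c_lt]
    have hR : ContinuousAt (fun t => Rv (m : ℝ) (sn h0 h1 t) (dn h0 h1 t)) t1 := by
      unfold Rv
      refine ContinuousAt.div ?_ ?_ ?_
      · exact (continuous_const.mul (continuous_const.add (cont_dn h0 h1))).continuousAt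
      · exact (cont_sn h0 h1).continuousAt
      · rw [hs1]; exact hu.hs.ne'
    unfold xval
    refine ContinuousAt.div_const (ContinuousAt.sub ?_ ?_) _
    · refine ContinuousAt.div (hX.mul (hR.add continuousAt_const)) (hX.add continuousAt_const) ?_
      simp only [hc1, hd1]
      positivity
    · refine ContinuousAt.div (hR.sub continuousAt_const) (hX.add continuousAt_const) ?_
      simp only [hc1, hd1]
      positivity
  have hev1 : ∀ᶠ t in 𝓝 t1, |xval (a : ℝ) ((m : ℝ) * n)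
      (Xv (m : ℝ) (cn h0 h1 t) (dn h0 h1 t)) (Rv (m : ℝ) (sn h0 h1 t) (dn h0 h1 t)) - x| < ε := by
    have h2 := hcont
    rw [ContinuousAt, hs1, hc1, hd1, hx] at h2
    have h3 := h2.eventually (Metric.ball_mem_nhds x hε)
    filter_upwards [h3] with t ht
    rwa [Real.dist_eq] at ht
  have hev2 : ∀ᶠ t in 𝓝 t1, 0 < sn h0 h1 t :=
    (cont_sn h0 h1).continuousAt.eventually (lt_mem_nhds (by rw [hs1]; exact hu.hs))
  obtain ⟨t, ⟨ht1, ht2⟩, htR⟩ := (mem_closure_iff_nhds.1 (hdense t1)) _ (hev1.and hev2)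
  obtain ⟨hts, htc, htd⟩ := htR
  obtain ⟨s', hs'⟩ := mem_QF.1 hts
  obtain ⟨c', hc'⟩ := mem_QF.1 htc
  obtain ⟨d', hd'⟩ := mem_QF.1 htd
  have hup : Upper (k : ℚ) s' c' d' := by
    have e1 := sn_sq h0 h1 t
    have e2 := dn_sq h0 h1 t
    have e3 := dn_pos h0 h1 t
    rw [← hs', ← hc'] at e1
    rw [← hs', ← hd'] at e2
    rw [← hs'] at ht2
    rw [← hd'] at e3
    refine ⟨?_, ?_, by exact_mod_cast ht2, by exact_mod_cast e3⟩
    · have : ((s' ^ 2 + c' ^ 2 : ℚ) : ℝ) = ((1 : ℚ) : ℝ) := by push_cast; linarith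
      exact_mod_cast this
    · have : ((d' ^ 2 + k * s' ^ 2 : ℚ) : ℝ) = ((1 : ℚ) : ℝ) := by push_cast; linarith
      exact_mod_cast this
  have hXq := hup.X_pos hk1 hm
  have hcv := hup.curve hm.ne' hkk
  have hcv' : Rv m s' d' ^ 2 * Xv m c' d'
      = Xv m c' d' ^ 2 + (1 + a ^ 2 + (m * n) ^ 2) * Xv m c' d' + (m * n) ^ 2 := by
    rw [hcv, ← ha2]; ring
  have hb0 : 0 ≤ (m * n) ^ 2 := by positivity
  refine ⟨xval a (m * n) (Xv m c' d') (Rv m s' d'), ?_,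
    ⟨_, xval_sq1 (by positivity) (by positivity) hcv'⟩,
    ⟨_, xval_sq2 (by positivity) (by positivity) (by positivity) hcv'⟩⟩
  rw [← hs', ← hc', ← hd'] at ht1
  have e : ((xval a (m * n) (Xv m c' d') (Rv m s' d') : ℚ) : ℝ)
      = xval (a : ℝ) ((m : ℝ) * n) (Xv (m : ℝ) (c' : ℝ) (d' : ℝ)) (Rv (m : ℝ) (s' : ℝ) (d' : ℝ)) := by
    simp [xval, Xv, Rv]
  rw [e]
  exact ht1

end

end Pool.Agent.RatApprox
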