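import Pool.Agent.RatApprox.Orbit

/-!
For suitable rational `a, b` the rational `x` with `x ^ 2 + 1` and `(x - a) ^ 2 + b ^ 2`
both rational squares are dense in the line.
-/

set_option autoImplicit false

namespace Pool.Agent.RatApprox

open Real Filter Topology

noncomputable section

/-- the abscissa attached to a point of the curve `r ^ 2 X = X ^ 2 + (1 + a ^ 2 + b ^ 2) X + b ^ 2` -/
def xval {F : Type*} [Field F] (a b X r : F) : F :=
  (X * (r + a) / (X + b ^ 2) - (r - a) / (X + 1)) / 2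

lemma xval_prod {F : Type*} [Field F] {a b X r : F} (h1 : X + 1 ≠ 0)
    (h2 : X + b ^ 2 ≠ 0) (h : r ^ 2 * X = X ^ 2 + (1 + a ^ 2 + b ^ 2) * X + b ^ 2) :
    (X * (r + a) / (X + b ^ 2)) * ((r - a) / (X + 1)) = 1 := by
  rw [div_mul_div_comm, div_eq_one_iff_eq (mul_ne_zero h2 h1)]
  linear_combination h

lemma xval_sq1 {F : Type*} [Field F] [CharZero F] {a b X r : F} (h1 : X + 1 ≠ 0)
    (h2 : X + b ^ 2 ≠ 0) (h : r ^ 2 * X = X ^ 2 + (1 + a ^ 2 + b ^ 2) * X + b ^ 2) :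
    xval a b X r ^ 2 + 1
      = ((X * (r + a) / (X + b ^ 2) + (r - a) / (X + 1)) / 2) ^ 2 := by
  have hp := xval_prod h1 h2 h
  unfold xval
  linear_combination -hp

lemma xval_sub {F : Type*} [Field F] [CharZero F] {a b X r : F} (h0 : X ≠ 0) (h1 : X + 1 ≠ 0)
    (h2 : X + b ^ 2 ≠ 0) :
    xval a b X r - a
      = (X * ((r - a) / (X + 1)) - b ^ 2 * (X * (r + a) / (X + b ^ 2)) / X) / 2 := by
  unfold xval
  field_simp
  ring

lemma xval_sq2 {F : Type*} [Field F] [CharZero F] {a b X r : F} (h0 : X ≠ 0) (h1 : X + 1 ≠ 0)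
    (h2 : X + b ^ 2 ≠ 0) (h : r ^ 2 * X = X ^ 2 + (1 + a ^ 2 + b ^ 2) * X + b ^ 2) :
    (xval a b X r - a) ^ 2 + b ^ 2
      = ((X * ((r - a) / (X + 1)) + b ^ 2 * (X * (r + a) / (X + b ^ 2)) / X) / 2) ^ 2 := by
  have hp := xval_prod h1 h2 h
  rw [xval_sub h0 h1 h2]
  generalize X * (r + a) / (X + b ^ 2) = t at *
  generalize (r - a) / (X + 1) = u at *
  have h3 : X * u * (b ^ 2 * t / X) = b ^ 2 := by
    rw [← mul_div_assoc, div_eq_iff h0]
    linear_combination b ^ 2 * X * hp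
  linear_combination -h3

section ordered

variable {F : Type*} [Field F] [LinearOrder F] [IsStrictOrderedRing F]

/-- a point in the upper half of the real component -/
structure Upper (k s c d : F) : Prop where
  hsc : s ^ 2 + c ^ 2 = 1
  hd : d ^ 2 + k * s ^ 2 = 1
  hs : 0 < s
  hd0 : 0 < d

lemma Upper.c_lt {k s c d : F} (h : Upper k s c d) : c < 1 := by
  nlinarith [h.hsc, h.hs, pow_pos h.hs 2]

lemma Upper.dc {k s c d : F} (h : Upper k s c d) (hk : k < 1) : 0 < d + c := by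
  have h1 : 0 < (1 - k) * s ^ 2 := mul_pos (by linarith) (pow_pos h.hs 2)
  have h2 : c ^ 2 < d ^ 2 := by nlinarith [h.hsc, h.hd]
  have h3 := abs_lt_of_sq_lt_sq h2 h.hd0.le
  linarith [neg_abs_le c]

/-- abscissa of the point of the elliptic curve -/
def Xv (m c d : F) : F := m ^ 2 * (d + c) / (1 - c)
/-- slope of the point of the elliptic curve -/
def Rv (m s d : F) : F := m * (1 + d) / s

lemma Upper.X_pos {k s c d m : F} (h : Upper k s c d) (hk : k < 1) (hm : 0 < m) :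
    0 < Xv m c d :=
  div_pos (mul_pos (pow_pos hm 2) (h.dc hk)) (by linarith [h.c_lt])

lemma Upper.curve {k s c d m n : F} (h : Upper k s c d) (hm : m ≠ 0)
    (hkk : k * m ^ 2 = m ^ 2 - n ^ 2) :
    Rv m s d ^ 2 * Xv m c d = (Xv m c d + m ^ 2) * (Xv m c d + n ^ 2) := by
  have hs := h.hs.ne'
  have hc : (1 - c) ≠ 0 := by linarith [h.c_lt]
  have e1 : Xv m c d + m ^ 2 = m ^ 2 * (1 + d) / (1 - c) := by
    unfold Xv; field_simp; ring
  have e2 : Xv m c d + n ^ 2 = m ^ 2 * (d + c) * (1 + d) / s ^ 2 := by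
    unfold Xv
    rw [div_add' _ _ _ hc, div_eq_div_iff hc (pow_ne_zero 2 hs)]
    have hs2 : s ^ 2 = (1 - c) * (1 + c) := by linear_combination h.hsc
    have key : n ^ 2 * s ^ 2 = m ^ 2 * (d + c) * (d - c) := by
      linear_combination s ^ 2 * hkk - m ^ 2 * h.hd + m ^ 2 * h.hsc
    have : (m ^ 2 * (d + c) + n ^ 2 * (1 - c)) * s ^ 2
        = (1 - c) * (m ^ 2 * (d + c) * (1 + c) + n ^ 2 * s ^ 2) := by
      rw [hs2]; ring
    rw [this, key]; ring
  rw [e1, e2]
  unfold Rv Xv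
  field_simp

end ordered

/-- surjectivity of the abscissa -/
lemma exists_upper {m n a k : ℝ} (hn : 0 < n) (hnm : n < m)
    (ha2 : m ^ 2 + n ^ 2 = 1 + a ^ 2 + (m * n) ^ 2) (hkk : k * m ^ 2 = m ^ 2 - n ^ 2) (x : ℝ) :
    ∃ s c d : ℝ, Upper k s c d ∧ xval a (m * n) (Xv m c d) (Rv m s d) = x := by
  have hm : 0 < m := hn.trans hnm
  have hb : 0 < m * n := mul_pos hm hn
  set b := m * n with hbdef
  set w1 := Real.sqrt (x ^ 2 + 1) with hw1
  set w2 := Real.sqrt ((x - a) ^ 2 + b ^ 2) with hw2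
  have hw1s : w1 ^ 2 = x ^ 2 + 1 := Real.sq_sqrt (by positivity)
  have hw2s : w2 ^ 2 = (x - a) ^ 2 + b ^ 2 := Real.sq_sqrt (by positivity)
  have hw1p : 0 < w1 := Real.sqrt_pos.2 (by positivity)
  have hw2p : 0 < w2 := Real.sqrt_pos.2 (by positivity)
  have ht : 0 < x + w1 := by
    have : |x| < w1 := abs_lt_of_sq_lt_sq (by rw [hw1s]; linarith) hw1p.le
    linarith [neg_abs_le x]
  have hs' : 0 < (x - a) + w2 := by
    have hb2 : 0 < b ^ 2 := by positivity
    have : |x - a| < w2 := abs_lt_of_sq_lt_sq (by rw [hw2s]; linarith) hw2p.le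
    linarith [neg_abs_le (x - a)]
  set t := x + w1 with htdef
  set σ := (x - a) + w2 with hσdef
  have ht1 : t ^ 2 - 2 * x * t - 1 = 0 := by rw [htdef]; linear_combination hw1s
  have hσ1 : σ ^ 2 - 2 * (x - a) * σ - b ^ 2 = 0 := by rw [hσdef]; linear_combination hw2s
  set X := t * σ with hX
  have hXp : 0 < X := mul_pos ht hs'
  set r := (t * (X + b ^ 2) / X + (X + 1) / t) / 2 with hr
  have hXb : 0 < X + b ^ 2 := by positivity
  have hrp : 0 < r := by rw [hr]; positivity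
  -- r + a and r - a
  have hra : r + a = t * (X + b ^ 2) / X := by
    rw [hr]
    have : t * (X + b ^ 2) / X - (X + 1) / t = 2 * a := by
      rw [div_sub_div _ _ hXp.ne' ht.ne', div_eq_iff (by positivity)]
      rw [hX]
      linear_combination t * σ * ht1 - t ^ 2 * hσ1
    linarith
  have hrma : r - a = (X + 1) / t := by
    rw [hr] at hra ⊢
    linarith
  have hcurve0 : r ^ 2 * X = X ^ 2 + (1 + a ^ 2 + b ^ 2) * X + b ^ 2 := by
    have h3 : (r + a) * (r - a) = (X + b ^ 2) * (X + 1) / X := by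
      rw [hra, hrma]; field_simp
    have h4 : (r + a) * (r - a) * X = (X + b ^ 2) * (X + 1) := by
      rw [h3]; field_simp
    linear_combination h4
  have hcurve : r ^ 2 * X = (X + m ^ 2) * (X + n ^ 2) := by
    rw [hcurve0, ← ha2, hbdef]; ring
  set den := X ^ 2 + 2 * m ^ 2 * X + m ^ 2 * n ^ 2 with hden
  have hdenp : 0 < den := by positivity
  have hdn := hdenp.ne'
  refine ⟨2 * m * r * X / den, (X ^ 2 - m ^ 2 * n ^ 2) / den,
    (X ^ 2 + 2 * n ^ 2 * X + m ^ 2 * n ^ 2) / den, ⟨?_, ?_, by positivity, by positivity⟩, ?_⟩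
  · rw [div_pow, div_pow, ← add_div, div_eq_one_iff_eq (pow_ne_zero 2 hdn), hden]
    linear_combination 4 * m ^ 2 * X * hcurve
  · rw [div_pow, div_pow, ← mul_div_assoc, ← add_div, div_eq_one_iff_eq (pow_ne_zero 2 hdn), hden]
    linear_combination 4 * r ^ 2 * X ^ 2 * hkk + 4 * (m ^ 2 - n ^ 2) * X * hcurve
  · have e1 : Xv m ((X ^ 2 - m ^ 2 * n ^ 2) / den) ((X ^ 2 + 2 * n ^ 2 * X + m ^ 2 * n ^ 2) / den)
        = X := by
      have h5 : 1 - (X ^ 2 - m ^ 2 * n ^ 2) / den = 2 * m ^ 2 * (X + n ^ 2) / den := by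
        rw [eq_div_iff hdn, sub_mul, div_mul_cancel₀ _ hdn, hden]; ring
      have h6 : (X ^ 2 + 2 * n ^ 2 * X + m ^ 2 * n ^ 2) / den + (X ^ 2 - m ^ 2 * n ^ 2) / den
          = 2 * X * (X + n ^ 2) / den := by
        rw [← add_div]; congr 1; ring
      unfold Xv
      rw [h5, h6]
      field_simp
    have e2 : Rv m (2 * m * r * X / den) ((X ^ 2 + 2 * n ^ 2 * X + m ^ 2 * n ^ 2) / den) = r := by
      have h5 : 1 + (X ^ 2 + 2 * n ^ 2 * X + m ^ 2 * n ^ 2) / den
          = 2 * (r ^ 2 * X) / den := by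
        rw [eq_div_iff hdn, add_mul, div_mul_cancel₀ _ hdn, hden, hcurve]; ring
      unfold Rv
      rw [h5]
      field_simp
    rw [e1, e2]
    unfold xval
    have h7 : X * (r + a) / (X + b ^ 2) = t := by
      rw [hra]; field_simp
    have h8 : (r - a) / (X + 1) = 1 / t := by
      rw [hrma]; field_simp
    rw [h7, h8]
    field_simp
    linear_combination ht1

end

end Pool.Agent.RatApprox
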