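import Pool.Agent.RatApprox.LineThm

/-!
The line theorem for any line of the Euclidean plane.
-/

set_option autoImplicit false

namespace Pool.Agent.RatApprox

open Filter Topology Complex ComplexConjugate

noncomputable section

/-- the Euclidean plane -/
abbrev E2 := EuclideanSpace ℝ (Fin 2)

lemma dist_phi {e n : E2} (he : inner ℝ e e = (1 : ℝ)) (hn : inner ℝ n n = (1 : ℝ))
    (hen : inner ℝ e n = (0 : ℝ)) (A : E2) (z w : ℂ) :
    dist (A + z.re • e + z.im • n) (A + w.re • e + w.im • n) = dist z w := by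
  have h1 : A + z.re • e + z.im • n - (A + w.re • e + w.im • n)
      = (z.re - w.re) • e + (z.im - w.im) • n := by module
  rw [dist_eq_norm, h1, Complex.dist_eq_re_im, norm_eq_sqrt_real_inner]
  congr 1
  simp only [inner_add_left, inner_add_right, inner_smul_left, inner_smul_right, he, hn, hen,
    real_inner_comm e n]
  simp
  ring

theorem line_E2 (ℓ : AffineSubspace ℝ E2) [Nonempty ℓ]
    (hℓ : Module.finrank ℝ ℓ.direction = 1) (P Q : E2) :
    RationallyApproximable ((ℓ : Set E2) ∪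
      {P, Q, EuclideanGeometry.reflection ℓ P, EuclideanGeometry.reflection ℓ Q}) := by
  classical
  obtain ⟨A, hA⟩ := (inferInstance : Nonempty ℓ)
  -- a unit direction vector
  obtain ⟨e0, he0, hspan⟩ := finrank_eq_one_iff'.1 hℓ
  have he0' : (e0 : E2) ≠ 0 := fun h => he0 (Subtype.ext h)
  set e : E2 := ‖(e0 : E2)‖⁻¹ • (e0 : E2) with he
  have hnorm : ‖(e0 : E2)‖ ≠ 0 := norm_ne_zero_iff.2 he0'
  have hemem : e ∈ ℓ.direction := ℓ.direction.smul_mem _ e0.2
  have hee : inner ℝ e e = (1 : ℝ) := by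
    rw [he, inner_smul_left, inner_smul_right, real_inner_self_eq_norm_sq]
    simp
    field_simp
  have hspan' : ∀ v ∈ ℓ.direction, ∃ t : ℝ, v = t • e := by
    intro v hv
    obtain ⟨t, ht⟩ := hspan ⟨v, hv⟩
    refine ⟨t * ‖(e0 : E2)‖, ?_⟩
    have h1 : t • (e0 : E2) = v := by
      have := congrArg Subtype.val ht
      simpa using this
    rw [he, smul_smul, ← h1]
    congr 1
    field_simp
  set n : E2 := !₂[-(e 1), e 0] with hn
  have hes : e 0 ^ 2 + e 1 ^ 2 = 1 := by
    have := hee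
    rw [PiLp.inner_apply] at this
    simp [Fin.sum_univ_two] at this
    linarith [this]
  have hnn : inner ℝ n n = (1 : ℝ) := by
    rw [PiLp.inner_apply]
    simp [Fin.sum_univ_two, hn]
    nlinarith [hes]
  have hen : inner ℝ e n = (0 : ℝ) := by
    rw [PiLp.inner_apply]
    simp [Fin.sum_univ_two, hn]
    ring
  have hnort : ∀ y : ℝ, y • n ∈ ℓ.directionᗮ := by
    intro y
    rw [Submodule.mem_orthogonal]
    intro u hu
    obtain ⟨t, rfl⟩ := hspan' u hu
    rw [inner_smul_left, inner_smul_right, hen]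
    simp
  set Φ : ℂ → E2 := fun z => A + z.re • e + z.im • n with hΦ
  have hdist : ∀ z w, dist (Φ z) (Φ w) = ((1 : ℚ) : ℝ) * dist z w := by
    intro z w
    simp only [hΦ]
    rw [dist_phi hee hnn hen]
    simp
  have hsurj : ∀ X : E2, ∃ z, Φ z = X := by
    intro X
    refine ⟨⟨(X 0 - A 0) * e 0 + (X 1 - A 1) * e 1, -(X 0 - A 0) * e 1 + (X 1 - A 1) * e 0⟩, ?_⟩
    ext i
    fin_cases i
    · simp [hΦ, hn]
      linear_combination (X 0 - A 0) * hes
    · simp [hΦ, hn]
      linear_combination (X 1 - A 1) * hes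
  have hrefl : ∀ z, EuclideanGeometry.reflection ℓ (Φ z) = Φ (conj z) := by
    intro z
    have h1 : A + z.re • e ∈ ℓ := by
      have := AffineSubspace.vadd_mem_of_mem_direction
        (ℓ.direction.smul_mem z.re hemem) hA
      rw [vadd_eq_add, add_comm] at this
      exact this
    have h2 := EuclideanGeometry.reflection_orthogonal_vadd h1 (hnort z.im)
    simp only [vadd_eq_add] at h2
    simp only [hΦ]
    rw [add_comm (A + z.re • e), h2]
    simp
    abel
  obtain ⟨p, hp⟩ := hsurj P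
  obtain ⟨q, hq⟩ := hsurj Q
  have h3 := (stage3 p q).image_sim (f := Φ) (by norm_num) hdist
  refine h3.mono ?_
  rintro X (hX | rfl | rfl | rfl | hX)
  · obtain ⟨t, ht⟩ := hspan' (X -ᵥ A) (AffineSubspace.vsub_mem_direction hX hA)
    refine ⟨(t : ℂ), Or.inl (by simp), ?_⟩
    simp only [hΦ, Complex.ofReal_re, Complex.ofReal_im, zero_smul, add_zero]
    rw [← ht, vsub_eq_sub]
    abel
  · exact ⟨p, Or.inr (Or.inl rfl), hp⟩
  · exact ⟨q, Or.inr (Or.inr (Or.inr (Or.inl rfl))), hq⟩
  · exact ⟨conj p, Or.inr (Or.inr (Or.inl rfl)), by rw [← hrefl, hp]⟩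
  · exact ⟨conj q, Or.inr (Or.inr (Or.inr (Or.inr rfl))), by rw [← hrefl, hq]; exact hX.symm⟩

end

end Pool.Agent.RatApprox
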