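import Pool.Agent.RatApprox.Plane

/-!
The line theorem: first for the real axis of the complex plane, then for any line of the
Euclidean plane.
-/

set_option autoImplicit false

namespace Pool.Agent.RatApprox

open Filter Topology Complex ComplexConjugate

noncomputable section

lemma dist_le_re_im (z w : ℂ) : dist z w ≤ |z.re - w.re| + |z.im - w.im| := by
  rw [dist_eq_norm]
  simpa using Complex.norm_le_abs_re_add_abs_im (z - w)

theorem stage0 {a b : ℝ} (ha : 0 < a) (hb : 0 < b) :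
    RationallyApproximable ({z : ℂ | z.im = 0} ∪ {I, -I, (⟨a, b⟩ : ℂ), (⟨a, -b⟩ : ℂ)}) := by
  intro ε hε
  obtain ⟨a', b', h1, h2, h3, h4, h5, h6, h7⟩ := exists_params ha hb (half_pos hε)
  refine ⟨modelSet a' b', modelSet_rational h5 h6, ?_⟩
  rintro z (hz | rfl | rfl | rfl | hz)
  · obtain ⟨y, hy, hy1, hy2⟩ := h7 z.re ε hε
    refine ⟨(y : ℂ), Or.inr (Or.inr (Or.inr (Or.inr ⟨y, rfl, hy1, hy2⟩))), ?_⟩
    refine lt_of_le_of_lt (dist_le_re_im _ _) ?_
    have hz' : z.im = 0 := hz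
    simp [hz']
    rwa [abs_sub_comm]
  · exact ⟨I, Or.inl rfl, by simpa using hε⟩
  · exact ⟨-I, Or.inr (Or.inl rfl), by simpa using hε⟩
  · refine ⟨_, Or.inr (Or.inr (Or.inl rfl)), ?_⟩
    refine lt_of_le_of_lt (dist_le_re_im _ _) ?_
    simp
    rw [abs_sub_comm, abs_sub_comm b]
    linarith
  · have hz' : z = (⟨a, -b⟩ : ℂ) := hz
    subst hz'
    refine ⟨_, Or.inr (Or.inr (Or.inr (Or.inl rfl))), ?_⟩
    refine lt_of_le_of_lt (dist_le_re_im _ _) ?_
    simp
    rw [abs_sub_comm a, ← abs_neg (-b + (b' : ℝ))]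
    have : -(-b + (b' : ℝ)) = -((b' : ℝ) - b) := by ring
    rw [this, abs_neg]
    linarith

/-- the case of a rational height and different abscissae -/
theorem stage1 {p q s : ℝ} {r : ℚ} (hr : 0 < r) (hs : 0 < s) (hpq : q ≠ p) :
    RationallyApproximable ({z : ℂ | z.im = 0} ∪ {(⟨p, r⟩ : ℂ), ⟨p, -r⟩, ⟨q, s⟩, ⟨q, -s⟩}) := by
  have hr' : (0 : ℝ) < r := by exact_mod_cast hr
  obtain ⟨σ, hσ1, hσ⟩ : ∃ σ : ℝ, σ ^ 2 = 1 ∧ 0 < σ * (q - p) := by
    rcases lt_or_gt_of_ne hpq with h | h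
    · exact ⟨-1, by norm_num, by linarith⟩
    · exact ⟨1, by norm_num, by linarith⟩
  have h0 := stage0 (a := σ * (q - p) / r) (b := s / r) (by positivity) (by positivity)
  have h1 := h0.image_sim (f := fun z : ℂ => (⟨p + r * σ * z.re, r * z.im⟩ : ℂ)) hr (by
    intro z w
    rw [Complex.dist_eq_re_im, Complex.dist_eq_re_im]
    have : (p + r * σ * z.re - (p + r * σ * w.re)) ^ 2 + (r * z.im - r * w.im) ^ 2
        = (r : ℝ) ^ 2 * ((z.re - w.re) ^ 2 + (z.im - w.im) ^ 2) := by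
      linear_combination (r : ℝ) ^ 2 * (z.re - w.re) ^ 2 * hσ1
    simp only [this]
    rw [Real.sqrt_mul (by positivity), Real.sqrt_sq hr'.le])
  refine h1.mono ?_
  have hσ0 : σ ≠ 0 := by
    rintro rfl
    simp at hσ1
  rintro z (hz | rfl | rfl | rfl | hz)
  · refine ⟨⟨σ * (z.re - p) / r, 0⟩, Or.inl rfl, ?_⟩
    have hz' : z.im = 0 := hz
    apply Complex.ext
    · simp
      field_simp
      linear_combination (z.re - p) * hσ1
    · simp [hz']
  · refine ⟨I, Or.inr (Or.inl rfl), ?_⟩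
    apply Complex.ext <;> simp
  · refine ⟨-I, Or.inr (Or.inr (Or.inl rfl)), ?_⟩
    apply Complex.ext <;> simp
  · refine ⟨_, Or.inr (Or.inr (Or.inr (Or.inl rfl))), ?_⟩
    apply Complex.ext
    · simp
      field_simp
      linear_combination (q - p) * hσ1
    · simp
      field_simp
  · have hz' : z = (⟨q, -s⟩ : ℂ) := hz
    subst hz'
    refine ⟨_, Or.inr (Or.inr (Or.inr (Or.inr rfl))), ?_⟩
    apply Complex.ext
    · simp
      field_simp
      linear_combination (q - p) * hσ1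
    · simp
      field_simp

theorem stage2 {p q r s : ℝ} (hr : 0 ≤ r) (hs : 0 ≤ s) :
    RationallyApproximable ({z : ℂ | z.im = 0} ∪ {(⟨p, r⟩ : ℂ), ⟨p, -r⟩, ⟨q, s⟩, ⟨q, -s⟩}) := by
  apply RationallyApproximable.of_close
  intro ε hε
  obtain ⟨r', hr1, hr2⟩ := exists_rat_btwn (show r < r + ε / 2 by linarith)
  obtain ⟨q', hq1, hq2⟩ : ∃ q' : ℝ, q' ≠ p ∧ |q - q'| < ε / 2 := by
    by_cases h : q = p
    · refine ⟨q + ε / 4, fun h2 => by linarith, ?_⟩
      have : q - (q + ε / 4) = -(ε / 4) := by ring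
      rw [this, abs_neg, abs_of_pos (by positivity)]
      linarith
    · exact ⟨q, h, by simpa using hε⟩
  have hr0 : (0 : ℚ) < r' := by
    have : (0 : ℝ) < r' := by linarith
    exact_mod_cast this
  refine ⟨_, stage1 (p := p) (q := q') (s := s + ε / 4) hr0 (by positivity) hq1, ?_⟩
  have e1 : |r - r'| < ε / 2 := by rw [abs_lt]; constructor <;> linarith
  have e2 : |-r + r'| < ε / 2 := by rw [abs_lt]; constructor <;> linarith
  have e3 : |s - (s + ε / 4)| < ε / 2 := by rw [abs_lt]; constructor <;> linarith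
  have e4 : |-s + (s + ε / 4)| < ε / 2 := by rw [abs_lt]; constructor <;> linarith
  rintro z (hz | rfl | rfl | rfl | hz)
  · exact ⟨z, Or.inl hz, by simpa using hε⟩
  · refine ⟨⟨p, r'⟩, Or.inr (Or.inl rfl), lt_of_le_of_lt (dist_le_re_im _ _) ?_⟩
    simp
    linarith
  · refine ⟨⟨p, -r'⟩, Or.inr (Or.inr (Or.inl rfl)), lt_of_le_of_lt (dist_le_re_im _ _) ?_⟩
    simp
    linarith
  · refine ⟨_, Or.inr (Or.inr (Or.inr (Or.inl rfl))), lt_of_le_of_lt (dist_le_re_im _ _) ?_⟩
    simp only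
    linarith
  · have hz' : z = (⟨q, -s⟩ : ℂ) := hz
    subst hz'
    refine ⟨_, Or.inr (Or.inr (Or.inr (Or.inr rfl))), lt_of_le_of_lt (dist_le_re_im _ _) ?_⟩
    simp only [sub_neg_eq_add]
    linarith

/-- The line theorem for the real axis. -/
theorem stage3 (P Q : ℂ) :
    RationallyApproximable ({z : ℂ | z.im = 0} ∪ {P, conj P, Q, conj Q}) := by
  have h := stage2 (p := P.re) (q := Q.re) (abs_nonneg P.im) (abs_nonneg Q.im)
  refine h.mono ?_
  have key : ∀ z : ℂ, (z = ⟨z.re, |z.im|⟩ ∧ conj z = ⟨z.re, -|z.im|⟩) ∨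
      (z = ⟨z.re, -|z.im|⟩ ∧ conj z = ⟨z.re, |z.im|⟩) := by
    intro z
    rcases abs_choice z.im with h | h
    · left
      constructor <;> apply Complex.ext <;> simp [h]
    · right
      constructor <;> apply Complex.ext <;> simp [h]
  rintro z (hz | rfl | rfl | rfl | hz)
  · exact Or.inl hz
  · rcases key z with h | h
    · exact Or.inr (Or.inl h.1)
    · exact Or.inr (Or.inr (Or.inl h.1))
  · rcases key P with h | h
    · exact Or.inr (Or.inr (Or.inl h.2))
    · exact Or.inr (Or.inl h.2)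
  · rcases key z with h | h
    · exact Or.inr (Or.inr (Or.inr (Or.inl h.1)))
    · exact Or.inr (Or.inr (Or.inr (Or.inr h.1)))
  · have hz' : z = conj Q := hz
    subst hz'
    rcases key Q with h | h
    · exact Or.inr (Or.inr (Or.inr (Or.inr h.2)))
    · exact Or.inr (Or.inr (Or.inr (Or.inl h.2)))

end

end Pool.Agent.RatApprox
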