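import Pool.Agent.RatApprox.Jacobi

/-!
Density of the rational points of the curve `s ^ 2 + c ^ 2 = 1`, `d ^ 2 + k s ^ 2 = 1`
as soon as there is a rational point with `2`-adically small nonzero `s`.
-/

set_option autoImplicit false

namespace Pool.Agent.RatApprox

open Real Filter Topology

noncomputable section

/-- The subfield of rational numbers in the reals. -/
def QF : Subfield ℝ := (Rat.castHom ℝ).fieldRange

lemma mem_QF {x : ℝ} : x ∈ QF ↔ ∃ q : ℚ, (q : ℝ) = x := by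
  simp [QF, RingHom.mem_fieldRange]

lemma cast_mem_QF (q : ℚ) : (q : ℝ) ∈ QF := mem_QF.2 ⟨q, rfl⟩

variable {k : ℝ} (h0 : 0 ≤ k) (h1 : k < 1)

lemma am_neg (t : ℝ) : am h0 h1 (-t) = -am h0 h1 t := by
  have hodd : ∀ x, EF k (-x) = -EF k x := by
    intro x
    have : ∀ x, HasDerivAt (fun x => EF k (-x) + EF k x) 0 x := by
      intro x
      have h2 := (EF_deriv h0 h1 (-x)).scomp x (hasDerivAt_neg x)
      have h3 : HasDerivAt (fun x => EF k (-x)) ((-1 : ℝ) • ww k (-x)) x := h2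
      have h4 := h3.add (EF_deriv h0 h1 x)
      refine h4.congr_deriv ?_
      simp [ww]
    have h5 := const_of_deriv_zero this x 0
    simp only [neg_zero, EF_zero, add_zero] at h5
    linarith
  have h := hodd (am h0 h1 t)
  rw [EF_am] at h
  rw [← h, am_EF]

lemma sn_neg (t : ℝ) : sn h0 h1 (-t) = -sn h0 h1 t := by simp [sn, am_neg]
lemma cn_neg (t : ℝ) : cn h0 h1 (-t) = cn h0 h1 t := by simp [cn, am_neg]
lemma dn_neg (t : ℝ) : dn h0 h1 (-t) = dn h0 h1 t := by simp [dn, am_neg]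

/-- The group of real parameters of rational points. -/
def RT (hk : k ∈ QF) : AddSubgroup ℝ where
  carrier := {t | sn h0 h1 t ∈ QF ∧ cn h0 h1 t ∈ QF ∧ dn h0 h1 t ∈ QF}
  zero_mem' := by
    change sn h0 h1 0 ∈ QF ∧ cn h0 h1 0 ∈ QF ∧ dn h0 h1 0 ∈ QF
    simp only [sn_zero, cn_zero, dn_zero]
    exact ⟨QF.zero_mem, QF.one_mem, QF.one_mem⟩
  neg_mem' := by
    intro t ht
    change sn h0 h1 (-t) ∈ QF ∧ cn h0 h1 (-t) ∈ QF ∧ dn h0 h1 (-t) ∈ QF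
    simp only [sn_neg, cn_neg, dn_neg]
    exact ⟨QF.neg_mem ht.1, ht.2⟩
  add_mem' := by
    intro u v hu hv
    obtain ⟨a1, a2, a3⟩ := hu
    obtain ⟨b1, b2, b3⟩ := hv
    have hD := (den_pos h0 h1 u v).ne'
    have hDm : 1 - k * sn h0 h1 u ^ 2 * sn h0 h1 v ^ 2 ∈ QF :=
      QF.sub_mem QF.one_mem (QF.mul_mem (QF.mul_mem hk (QF.pow_mem a1 2)) (QF.pow_mem b1 2))
    refine ⟨?_, ?_, ?_⟩
    · rw [eq_div_of_mul_eq hD (sn_add h0 h1 u v)]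
      exact QF.div_mem (QF.add_mem (QF.mul_mem (QF.mul_mem a1 b2) b3)
        (QF.mul_mem (QF.mul_mem b1 a2) a3)) hDm
    · rw [eq_div_of_mul_eq hD (cn_add h0 h1 u v)]
      exact QF.div_mem (QF.sub_mem (QF.mul_mem a2 b2)
        (QF.mul_mem (QF.mul_mem a1 b1) (QF.mul_mem a3 b3))) hDm
    · rw [eq_div_of_mul_eq hD (dn_add h0 h1 u v)]
      exact QF.div_mem (QF.sub_mem (QF.mul_mem a3 b3)
        (QF.mul_mem (QF.mul_mem (QF.mul_mem a1 b1) (QF.mul_mem a2 b2)) hk)) hDm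

lemma mem_RT {hk : k ∈ QF} {t : ℝ} :
    t ∈ RT h0 h1 hk ↔ sn h0 h1 t ∈ QF ∧ cn h0 h1 t ∈ QF ∧ dn h0 h1 t ∈ QF := Iff.rfl

/-- the period -/
def per (k : ℝ) : ℝ := EF k (2 * π)

lemma per_pos (h0 : 0 ≤ k) (h1 : k < 1) : 0 < per k := by
  have h := EF_ge h0 h1 (x := 2 * π) (by positivity)
  have := Real.pi_pos
  unfold per
  linarith

lemma am_per : am h0 h1 (per k) = 2 * π := am_EF h0 h1 _

lemma per_mem (hk : k ∈ QF) : per k ∈ RT h0 h1 hk := by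
  refine ⟨?_, ?_, ?_⟩
  · simp only [sn, am_per, Real.sin_two_pi]; exact QF.zero_mem
  · simp only [cn, am_per, Real.cos_two_pi]; exact QF.one_mem
  · simp only [dn, am_per, Real.sin_two_pi]
    norm_num

lemma sn_add_zsmul_per (t : ℝ) (l : ℤ) : sn h0 h1 (t + l • per k) = sn h0 h1 t := by
  have hp : Function.Periodic (sn h0 h1) (per k) := fun t => sn_add_period h0 h1 t
  exact hp.zsmul l t

/-- a `2`-adic point: good triples -/
structure Good (k s c d : ℚ) : Prop where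
  hc : s ^ 2 + c ^ 2 = 1
  hd : d ^ 2 + k * s ^ 2 = 1
  hs : ‖(s : ℚ_[2])‖ < 1
  hk : ‖(k : ℚ_[2])‖ ≤ 1
  hne : s ≠ 0

lemma norm_two : ‖(2 : ℚ_[2])‖ = 1 / 2 := by
  have := Padic.norm_p (p := 2)
  simpa using this

lemma norm_one_sub {x : ℚ_[2]} (hx : ‖x‖ < 1) : ‖1 - x‖ = 1 := by
  have h := Padic.add_eq_max_of_ne (q := (1 : ℚ_[2])) (r := -x)
    (by rw [norm_one, norm_neg]; exact hx.ne')
  rw [sub_eq_add_neg, h, norm_one, norm_neg, max_eq_left hx.le]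

lemma norm_of_sq {x : ℚ_[2]} (h : ‖x ^ 2‖ = 1) : ‖x‖ = 1 := by
  rw [norm_pow] at h
  exact (pow_eq_one_iff_of_nonneg (norm_nonneg _) two_ne_zero).1 h

lemma Good.norm_c {k s c d : ℚ} (h : Good k s c d) : ‖(c : ℚ_[2])‖ = 1 := by
  apply norm_of_sq
  have e : ((c : ℚ_[2])) ^ 2 = 1 - (s : ℚ_[2]) ^ 2 := by
    have := h.hc
    have h2 : ((s ^ 2 + c ^ 2 : ℚ) : ℚ_[2]) = ((1 : ℚ) : ℚ_[2]) := by rw [this]
    push_cast at h2
    linear_combination h2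
  rw [e]
  apply norm_one_sub
  rw [norm_pow]
  exact pow_lt_one₀ (norm_nonneg _) h.hs two_ne_zero

lemma Good.norm_ks {k s c d : ℚ} (h : Good k s c d) : ‖(k : ℚ_[2]) * (s : ℚ_[2]) ^ 2‖ < 1 := by
  rw [norm_mul, norm_pow]
  have h2 : ‖(s : ℚ_[2])‖ ^ 2 < 1 := pow_lt_one₀ (norm_nonneg _) h.hs two_ne_zero
  calc _ ≤ 1 * ‖(s : ℚ_[2])‖ ^ 2 := by
        apply mul_le_mul_of_nonneg_right h.hk (by positivity)
    _ < 1 := by rw [one_mul]; exact h2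

lemma Good.norm_d {k s c d : ℚ} (h : Good k s c d) : ‖(d : ℚ_[2])‖ = 1 := by
  apply norm_of_sq
  have e : ((d : ℚ_[2])) ^ 2 = 1 - (k : ℚ_[2]) * (s : ℚ_[2]) ^ 2 := by
    have := h.hd
    have h2 : ((d ^ 2 + k * s ^ 2 : ℚ) : ℚ_[2]) = ((1 : ℚ) : ℚ_[2]) := by rw [this]
    push_cast at h2
    linear_combination h2
  rw [e]
  exact norm_one_sub h.norm_ks

lemma Good.norm_den {k s c d : ℚ} (h : Good k s c d) :
    ‖1 - (k : ℚ_[2]) * (s : ℚ_[2]) ^ 4‖ = 1 := by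
  apply norm_one_sub
  have e : (k : ℚ_[2]) * (s : ℚ_[2]) ^ 4 = (k : ℚ_[2]) * (s : ℚ_[2]) ^ 2 * (s : ℚ_[2]) ^ 2 := by
    ring
  rw [e, norm_mul]
  have h2 : ‖(s : ℚ_[2]) ^ 2‖ ≤ 1 := by
    rw [norm_pow]; exact pow_le_one₀ (norm_nonneg _) h.hs.le
  calc _ ≤ ‖(k : ℚ_[2]) * (s : ℚ_[2]) ^ 2‖ * 1 :=
        mul_le_mul_of_nonneg_left h2 (norm_nonneg _)
    _ < 1 := by rw [mul_one]; exact h.norm_ks

lemma Good.den_ne {k s c d : ℚ} (h : Good k s c d) : 1 - k * s ^ 4 ≠ 0 := by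
  intro h0
  have h2 := h.norm_den
  have h3 : ((1 - k * s ^ 4 : ℚ) : ℚ_[2]) = ((0 : ℚ) : ℚ_[2]) := by rw [h0]
  push_cast at h3
  rw [h3, norm_zero] at h2
  exact zero_ne_one h2

/-- doubling on good triples -/
def dS (k s c d : ℚ) : ℚ := 2 * s * c * d / (1 - k * s ^ 4)
def dC (k s c d : ℚ) : ℚ := (c ^ 2 - s ^ 2 * d ^ 2) / (1 - k * s ^ 4)
def dD (k s c d : ℚ) : ℚ := (d ^ 2 - s ^ 2 * c ^ 2 * k) / (1 - k * s ^ 4)

lemma Good.norm_dS {k s c d : ℚ} (h : Good k s c d) :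
    ‖(dS k s c d : ℚ_[2])‖ = ‖(s : ℚ_[2])‖ / 2 := by
  unfold dS
  push_cast
  rw [norm_div, norm_mul, norm_mul, norm_mul, h.norm_den, h.norm_c, h.norm_d, norm_two]
  ring

lemma Good.dbl {k s c d : ℚ} (h : Good k s c d) :
    Good k (dS k s c d) (dC k s c d) (dD k s c d) := by
  have hden := h.den_ne
  have hc : c ^ 2 = 1 - s ^ 2 := by linear_combination h.hc
  have hd : d ^ 2 = 1 - k * s ^ 2 := by linear_combination h.hd
  refine ⟨?_, ?_, ?_, h.hk, ?_⟩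
  · unfold dS dC
    rw [div_pow, div_pow, ← add_div, div_eq_one_iff_eq (pow_ne_zero 2 hden)]
    have e : (2 * s * c * d) ^ 2 + (c ^ 2 - s ^ 2 * d ^ 2) ^ 2
        = 4 * s ^ 2 * c ^ 2 * d ^ 2 + (c ^ 2 - s ^ 2 * d ^ 2) ^ 2 := by ring
    rw [e, hc, hd]
    ring
  · unfold dS dD
    rw [div_pow, div_pow, ← mul_div_assoc, ← add_div, div_eq_one_iff_eq (pow_ne_zero 2 hden)]
    have e : (d ^ 2 - s ^ 2 * c ^ 2 * k) ^ 2 + k * (2 * s * c * d) ^ 2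
        = (d ^ 2 - s ^ 2 * c ^ 2 * k) ^ 2 + 4 * k * s ^ 2 * c ^ 2 * d ^ 2 := by ring
    rw [e, hc, hd]
    ring
  · rw [h.norm_dS]
    have := norm_nonneg (s : ℚ_[2])
    linarith [h.hs]
  · intro h0
    have h2 := h.norm_dS
    rw [h0] at h2
    have h3 : ‖(s : ℚ_[2])‖ ≠ 0 := by
      rw [norm_ne_zero_iff]
      exact_mod_cast h.hne
    apply h3
    have h4 : ‖((0 : ℚ) : ℚ_[2])‖ = 0 := by simp
    rw [h4] at h2
    linarith

lemma double_step {kq : ℚ} (hkq : (kq : ℝ) = k) {s c d : ℚ} {t : ℝ}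
    (hs : sn h0 h1 t = s) (hc : cn h0 h1 t = c) (hd : dn h0 h1 t = d) :
    sn h0 h1 (t + t) = (dS kq s c d : ℚ) ∧ cn h0 h1 (t + t) = (dC kq s c d : ℚ)
      ∧ dn h0 h1 (t + t) = (dD kq s c d : ℚ) := by
  have hD := (den_pos h0 h1 t t).ne'
  have e : 1 - k * sn h0 h1 t ^ 2 * sn h0 h1 t ^ 2 = ((1 - kq * s ^ 4 : ℚ) : ℝ) := by
    rw [hs, ← hkq]; push_cast; ring
  refine ⟨?_, ?_, ?_⟩
  · rw [eq_div_of_mul_eq hD (sn_add h0 h1 t t), e, hs, hc, hd]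
    unfold dS; push_cast; ring
  · rw [eq_div_of_mul_eq hD (cn_add h0 h1 t t), e, hs, hc, hd]
    unfold dC; push_cast; ring
  · rw [eq_div_of_mul_eq hD (dn_add h0 h1 t t), e, hs, hc, hd, ← hkq]
    unfold dD; push_cast; ring

lemma iterate_step {kq : ℚ} (hkq : (kq : ℝ) = k) {s c d : ℚ} {t : ℝ} (hg : Good kq s c d)
    (hs : sn h0 h1 t = s) (hc : cn h0 h1 t = c) (hd : dn h0 h1 t = d) (i : ℕ) :
    ∃ s' c' d' : ℚ, Good kq s' c' d' ∧ sn h0 h1 (2 ^ i * t) = s' ∧ cn h0 h1 (2 ^ i * t) = c'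
      ∧ dn h0 h1 (2 ^ i * t) = d' ∧ ‖(s' : ℚ_[2])‖ = ‖(s : ℚ_[2])‖ / 2 ^ i := by
  induction i with
  | zero => exact ⟨s, c, d, hg, by simpa using hs, by simpa using hc, by simpa using hd, by simp⟩
  | succ i ih =>
    obtain ⟨s', c', d', g', a, b, e, n⟩ := ih
    obtain ⟨a', b', e'⟩ := double_step h0 h1 hkq a b e
    have ht : (2 : ℝ) ^ (i + 1) * t = 2 ^ i * t + 2 ^ i * t := by ring
    refine ⟨_, _, _, g'.dbl, by rw [ht]; exact a', by rw [ht]; exact b', by rw [ht]; exact e', ?_⟩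
    rw [g'.norm_dS, n, pow_succ]
    ring

theorem RT_dense (hk : k ∈ QF) {kq : ℚ} (hkq : (kq : ℝ) = k) {s c d : ℚ} {t : ℝ}
    (hg : Good kq s c d)
    (hs : sn h0 h1 t = s) (hc : cn h0 h1 t = c) (hd : dn h0 h1 t = d) :
    Dense ((RT h0 h1 hk : AddSubgroup ℝ) : Set ℝ) := by
  rcases AddSubgroup.dense_or_cyclic (RT h0 h1 hk) with h | ⟨δ, hδ⟩
  · exact h
  exfalso
  have hP := per_mem h0 h1 hk
  have hT : t ∈ RT h0 h1 hk := by
    rw [mem_RT, hs, hc, hd]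
    exact ⟨cast_mem_QF s, cast_mem_QF c, cast_mem_QF d⟩
  rw [hδ, AddSubgroup.mem_closure_singleton] at hP hT
  obtain ⟨q, hq⟩ := hP
  obtain ⟨p, hp⟩ := hT
  have hq0 : q ≠ 0 := by
    rintro rfl
    rw [zero_smul] at hq
    exact (per_pos h0 h1).ne hq
  -- pigeonhole
  have : NeZero q.natAbs := ⟨by simpa using hq0⟩
  obtain ⟨i, j, hij, hEq⟩ := Finite.exists_ne_map_eq_of_infinite
    (fun i : ℕ => ((2 ^ i * p : ℤ) : ZMod q.natAbs))
  have hdiv : q ∣ 2 ^ j * p - 2 ^ i * p := by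
    have := (ZMod.intCast_eq_intCast_iff_dvd_sub (2 ^ i * p) (2 ^ j * p) q.natAbs).1 hEq
    exact Int.natAbs_dvd.1 this
  obtain ⟨l, hl⟩ := hdiv
  have hval : (2 : ℝ) ^ j * t = 2 ^ i * t + l • per k := by
    rw [← hp, ← hq]
    simp only [zsmul_eq_mul]
    have h2 : ((2 ^ j * p - 2 ^ i * p : ℤ) : ℝ) = ((q * l : ℤ) : ℝ) := by rw [hl]
    push_cast at h2
    linear_combination δ * h2
  have hsn : sn h0 h1 (2 ^ j * t) = sn h0 h1 (2 ^ i * t) := by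
    rw [hval, sn_add_zsmul_per]
  obtain ⟨s1, c1, d1, g1, a1, -, -, n1⟩ := iterate_step h0 h1 hkq hg hs hc hd i
  obtain ⟨s2, c2, d2, g2, a2, -, -, n2⟩ := iterate_step h0 h1 hkq hg hs hc hd j
  have hss : s2 = s1 := by
    have : (s2 : ℝ) = s1 := by rw [← a1, ← a2, hsn]
    exact_mod_cast this
  rw [hss, n1] at n2
  have hs0 : ‖(s : ℚ_[2])‖ ≠ 0 := by
    rw [norm_ne_zero_iff]
    exact_mod_cast hg.hne
  have h3 : (2 : ℝ) ^ i = 2 ^ j := by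
    have hi : (2 : ℝ) ^ i ≠ 0 := by positivity
    have hj : (2 : ℝ) ^ j ≠ 0 := by positivity
    rw [div_eq_div_iff hi hj] at n2
    exact (mul_left_cancel₀ hs0 n2).symm
  exact hij (pow_right_injective₀ (by norm_num) (by norm_num) h3)

/-- every real point of the curve with `d > 0` has a parameter -/
lemma exists_param {s c d : ℝ} (hsc : s ^ 2 + c ^ 2 = 1) (hd : d ^ 2 + k * s ^ 2 = 1)
    (hd0 : 0 < d) : ∃ t, sn h0 h1 t = s ∧ cn h0 h1 t = c ∧ dn h0 h1 t = d := by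
  obtain ⟨x, hx⟩ : ∃ x : ℝ, Real.cos x = c ∧ Real.sin x = s := by
    have hn : ‖(⟨c, s⟩ : ℂ)‖ = 1 := by
      rw [Complex.norm_def, Complex.normSq_mk, show c * c + s * s = 1 by nlinarith, Real.sqrt_one]
    have hne : (⟨c, s⟩ : ℂ) ≠ 0 := by
      intro h; rw [h, norm_zero] at hn; exact zero_ne_one hn
    refine ⟨Complex.arg ⟨c, s⟩, ?_, ?_⟩
    · rw [Complex.cos_arg hne, hn]; simp
    · rw [Complex.sin_arg, hn]; simp
  refine ⟨EF k x, ?_, ?_, ?_⟩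
  · simp only [sn, am_EF]; exact hx.2
  · simp only [cn, am_EF]; exact hx.1
  · simp only [dn, am_EF]
    rw [hx.2, show 1 - k * s ^ 2 = d ^ 2 by linarith, Real.sqrt_sq hd0.le]

end

end Pool.Agent.RatApprox
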