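import Pool.Agent.RatApprox.Line

/-!
Dense choice of the parameters.
-/

set_option autoImplicit false

namespace Pool.Agent.RatApprox

open Real Filter Topology

noncomputable section

lemma norm_even_lt {z : ℤ} {N : ℤ} (hN : ¬ (2 : ℤ) ∣ N) : ‖((2 * z / N : ℚ) : ℚ_[2])‖ < 1 := by
  have h1 : ‖(N : ℚ_[2])‖ = 1 := by
    apply le_antisymm (Padic.norm_int_le_one N)
    by_contra h
    push Not at h
    exact hN (Padic.norm_intCast_lt_one_iff.1 h)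
  have h2 : ‖(z : ℚ_[2])‖ ≤ 1 := Padic.norm_int_le_one z
  push_cast
  rw [norm_div, norm_mul, h1, norm_two]
  linarith

lemma even_rat_dense (x : ℝ) {δ : ℝ} (hδ : 0 < δ) :
    ∃ q : ℚ, |(q : ℝ) - x| < δ ∧ ‖(q : ℚ_[2])‖ < 1 := by
  obtain ⟨M, hM⟩ := exists_nat_gt (2 / δ)
  set N : ℤ := 2 * M + 1 with hN
  have hNr : (N : ℝ) = 2 * M + 1 := by rw [hN]; push_cast; ring
  have hNpos : (0 : ℝ) < N := by rw [hNr]; positivity
  have hNdiv : ¬ (2 : ℤ) ∣ N := by omega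
  refine ⟨2 * (⌊x * N / 2⌋ : ℤ) / (N : ℤ), ?_, norm_even_lt hNdiv⟩
  have f1 := Int.floor_le (x * N / 2)
  have f2 := Int.lt_floor_add_one (x * N / 2)
  push_cast
  have hM2 : 2 < δ * N := by
    have h3 : 2 < δ * M := by rwa [div_lt_iff₀' hδ] at hM
    have hM0 : (0 : ℝ) ≤ M := Nat.cast_nonneg M
    rw [hNr]; nlinarith
  rw [abs_lt]
  constructor
  · rw [lt_sub_iff_add_lt, lt_div_iff₀ hNpos]
    nlinarith
  · rw [sub_lt_iff_lt_add, div_lt_iff₀ hNpos]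
    nlinarith

/-- parameters -/
def pA (n l : ℚ) : ℚ := (1 - n ^ 2) * l ^ 2
def pm (n l : ℚ) : ℚ := (pA n l + 1) / (pA n l - 1)
def pa (n l : ℚ) : ℚ := 2 * (1 - n ^ 2) * l / (pA n l - 1)

structure PCond (n l : ℚ) : Prop where
  n0 : 0 < n
  n1 : n < 1
  l0 : 0 < l
  A1 : 1 < pA n l
  nn : ‖(n : ℚ_[2])‖ < 1
  nl : ‖(l : ℚ_[2])‖ < 1

lemma PCond.m1 {n l : ℚ} (h : PCond n l) : 1 < pm n l := by
  unfold pm
  rw [one_lt_div (by linarith [h.A1])]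
  linarith

lemma PCond.a0 {n l : ℚ} (h : PCond n l) : 0 < pa n l := by
  unfold pa
  have h1 : 0 < 1 - n ^ 2 := by nlinarith [h.n0, h.n1]
  have h2 := h.l0
  have h3 : 0 < pA n l - 1 := by linarith [h.A1]
  positivity

lemma PCond.a_sq {n l : ℚ} (h : PCond n l) :
    pa n l ^ 2 = (pm n l ^ 2 - 1) * (1 - n ^ 2) := by
  have h3 : pA n l - 1 ≠ 0 := by linarith [h.A1]
  unfold pm pa
  rw [div_pow, div_pow, div_sub_one (pow_ne_zero 2 h3), div_mul_eq_mul_div]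
  congr 1
  have : pA n l = (1 - n ^ 2) * l ^ 2 := rfl
  linear_combination -4 * (1 - n ^ 2) * this

/-- the point `T` -/
def pden (n l : ℚ) : ℚ := 1 - 2 * pm n l ^ 2 + pm n l ^ 2 * n ^ 2
def pk (n l : ℚ) : ℚ := 1 - n ^ 2 / pm n l ^ 2
def ps (n l : ℚ) : ℚ := 2 * pm n l * pa n l / pden n l
def pc (n l : ℚ) : ℚ := (1 - pm n l ^ 2 * n ^ 2) / pden n l
def pd (n l : ℚ) : ℚ := (1 - 2 * n ^ 2 + pm n l ^ 2 * n ^ 2) / pden n l

lemma PCond.den_neg {n l : ℚ} (h : PCond n l) : pden n l < 0 := by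
  have h1 := h.m1
  have h2 : n ^ 2 < 1 := by nlinarith [h.n0, h.n1]
  have h3 : 1 < pm n l ^ 2 := by nlinarith
  unfold pden
  nlinarith

lemma PCond.kk {n l : ℚ} (h : PCond n l) :
    pk n l * pm n l ^ 2 = pm n l ^ 2 - n ^ 2 := by
  have h1 : pm n l ≠ 0 := by linarith [h.m1]
  unfold pk
  field_simp

section norms

lemma norm_one_add {x : ℚ_[2]} (hx : ‖x‖ < 1) : ‖1 + x‖ = 1 := by
  have := norm_one_sub (x := -x) (by rwa [norm_neg])
  rwa [sub_neg_eq_add] at this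

lemma PCond.norms {n l : ℚ} (h : PCond n l) :
    ‖(ps n l : ℚ_[2])‖ < 1 ∧ ‖(pk n l : ℚ_[2])‖ ≤ 1 := by
  have hn2 : ‖(n : ℚ_[2]) ^ 2‖ < 1 := by
    rw [norm_pow]; exact pow_lt_one₀ (norm_nonneg _) h.nn two_ne_zero
  have h1n : ‖1 - (n : ℚ_[2]) ^ 2‖ = 1 := norm_one_sub hn2
  have hl2 : ‖(l : ℚ_[2]) ^ 2‖ < 1 := by
    rw [norm_pow]; exact pow_lt_one₀ (norm_nonneg _) h.nl two_ne_zero
  have hA : ‖(pA n l : ℚ_[2])‖ < 1 := by
    unfold pA
    push_cast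
    rw [norm_mul, h1n, one_mul]; exact hl2
  have hA1 : ‖(pA n l : ℚ_[2]) - 1‖ = 1 := by
    rw [norm_sub_rev]; exact norm_one_sub hA
  have hA2 : ‖(pA n l : ℚ_[2]) + 1‖ = 1 := by
    rw [add_comm]; exact norm_one_add hA
  have hm : ‖(pm n l : ℚ_[2])‖ = 1 := by
    unfold pm
    push_cast
    rw [norm_div, hA1, hA2, div_one]
  have ha : ‖(pa n l : ℚ_[2])‖ < 1 := by
    unfold pa
    push_cast
    rw [norm_div, norm_mul, norm_mul, hA1, h1n, norm_two]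
    have := norm_nonneg (l : ℚ_[2])
    linarith [h.nl]
  have hden : ‖(pden n l : ℚ_[2])‖ = 1 := by
    have e : (pden n l : ℚ_[2])
        = 1 - (pm n l : ℚ_[2]) ^ 2 * (2 + -(n : ℚ_[2]) ^ 2) := by
      unfold pden
      push_cast
      ring
    rw [e]
    apply norm_one_sub
    rw [norm_mul, norm_pow, hm, one_pow, one_mul]
    refine lt_of_le_of_lt (Padic.nonarchimedean _ _) (max_lt ?_ ?_)
    · rw [norm_two]; norm_num
    · rwa [norm_neg]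
  constructor
  · unfold ps
    push_cast
    rw [norm_div, norm_mul, norm_mul, hden, hm, norm_two]
    have := norm_nonneg (pa n l : ℚ_[2])
    linarith
  · unfold pk
    push_cast
    have : ‖(n : ℚ_[2]) ^ 2 / (pm n l : ℚ_[2]) ^ 2‖ < 1 := by
      rw [norm_div, norm_pow (pm n l : ℚ_[2]), hm, one_pow, div_one]; exact hn2
    rw [norm_one_sub this]

end norms

lemma PCond.good {n l : ℚ} (h : PCond n l) :
    Good (pk n l) (ps n l) (pc n l) (pd n l) := by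
  have hd := h.den_neg.ne
  have ha := h.a_sq
  have hm0 : pm n l ≠ 0 := by linarith [h.m1]
  refine ⟨?_, ?_, h.norms.1, h.norms.2, ?_⟩
  · unfold ps pc
    rw [div_pow, div_pow, ← add_div, div_eq_one_iff_eq (pow_ne_zero 2 hd)]
    unfold pden
    linear_combination 4 * pm n l ^ 2 * ha
  · unfold ps pd
    rw [div_pow, div_pow, ← mul_div_assoc, ← add_div, div_eq_one_iff_eq (pow_ne_zero 2 hd)]
    have hk := h.kk
    unfold pden
    linear_combination 4 * pa n l ^ 2 * hk + 4 * (pm n l ^ 2 - n ^ 2) * ha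
  · unfold ps
    have h1 := h.m1
    have h2 := h.a0
    exact div_ne_zero (by positivity) hd

lemma dD_pos {k s c d : ℚ} (hc : s ^ 2 + c ^ 2 = 1) (hd : d ^ 2 + k * s ^ 2 = 1) (h0 : 0 ≤ k)
    (h1 : k < 1) : 0 < dD k s c d := by
  have hs1 : s ^ 2 ≤ 1 := by nlinarith [sq_nonneg c]
  have hs0 := sq_nonneg s
  have hks : k * s ^ 2 < 1 := by nlinarith
  have hks4 : k * s ^ 4 < 1 := by
    calc k * s ^ 4 = k * s ^ 2 * s ^ 2 := by ring
      _ ≤ k * s ^ 2 * 1 := mul_le_mul_of_nonneg_left hs1 (mul_nonneg h0 hs0)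
      _ < 1 := by rw [mul_one]; exact hks
  unfold dD
  apply div_pos
  · have e : d ^ 2 - s ^ 2 * c ^ 2 * k = (1 - k * s ^ 2) ^ 2 + k * (1 - k) * s ^ 4 := by
      have e1 : d ^ 2 = 1 - k * s ^ 2 := by linarith
      have e2 : c ^ 2 = 1 - s ^ 2 := by linarith
      rw [e1, e2]; ring
    rw [e]
    have p1 : 0 < (1 - k * s ^ 2) ^ 2 := by
      apply pow_pos; linarith
    have p2 : 0 ≤ k * (1 - k) * s ^ 4 := by
      apply mul_nonneg (mul_nonneg h0 (by linarith)) (by positivity)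
    linarith
  · linarith

/-- density of the good abscissae for good parameters -/
theorem PCond.line {n l : ℚ} (h : PCond n l) (x : ℝ) {ε : ℝ} (hε : 0 < ε) :
    ∃ y : ℚ, |(y : ℝ) - x| < ε ∧ (∃ u : ℚ, y ^ 2 + 1 = u ^ 2) ∧
      (∃ v : ℚ, (y - pa n l) ^ 2 + (pm n l * n) ^ 2 = v ^ 2) := by
  have hm1 := h.m1
  have hn0 := h.n0
  have hn1 := h.n1
  have hnm : n < pm n l := by linarith
  have hk := h.kk
  have hm2 : 0 < pm n l ^ 2 := by positivity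
  have hk0 : 0 ≤ pk n l := by
    by_contra h'
    push Not at h'
    have h1 : pk n l * pm n l ^ 2 < 0 := mul_neg_of_neg_of_pos h' hm2
    nlinarith
  have hk1 : pk n l < 1 := by
    by_contra h'
    push Not at h'
    have h1 : 1 * pm n l ^ 2 ≤ pk n l * pm n l ^ 2 := mul_le_mul_of_nonneg_right h' hm2.le
    nlinarith [pow_pos hn0 2]
  exact line_dense hn0 hnm (by linear_combination -h.a_sq) hk h.good.dbl
    (dD_pos h.good.hc h.good.hd hk0 hk1) x hε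

/-- The data used in the geometric part. -/
theorem exists_params {a b : ℝ} (ha : 0 < a) (hb : 0 < b) {ε : ℝ} (hε : 0 < ε) :
    ∃ a' b' : ℚ, |(a' : ℝ) - a| < ε ∧ |(b' : ℝ) - b| < ε ∧ 0 < a' ∧ 0 < b' ∧
      (∃ u : ℚ, a' ^ 2 + (b' - 1) ^ 2 = u ^ 2) ∧ (∃ u : ℚ, a' ^ 2 + (b' + 1) ^ 2 = u ^ 2) ∧
      ∀ (x : ℝ) (ε : ℝ), 0 < ε → ∃ y : ℚ, |(y : ℝ) - x| < ε ∧ (∃ u : ℚ, y ^ 2 + 1 = u ^ 2) ∧
        (∃ v : ℚ, (y - a') ^ 2 + b' ^ 2 = v ^ 2) := by
  set d := Real.sqrt (a ^ 2 + (b - 1) ^ 2) with hd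
  set e := Real.sqrt (a ^ 2 + (b + 1) ^ 2) with he
  have ha2 : 0 < a ^ 2 := by positivity
  have hds : d ^ 2 = a ^ 2 + (b - 1) ^ 2 := Real.sq_sqrt (by positivity)
  have hes : e ^ 2 = a ^ 2 + (b + 1) ^ 2 := Real.sq_sqrt (by positivity)
  have hd0 : 0 < d := Real.sqrt_pos.2 (by positivity)
  have he0 : 0 < e := Real.sqrt_pos.2 (by positivity)
  have hde : d < e := by
    apply lt_of_pow_lt_pow_left₀ 2 he0.le
    rw [hds, hes]; nlinarith
  set m := (e + d) / 2 with hm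
  set n := (e - d) / 2 with hn
  have hn0 : 0 < n := by rw [hn]; linarith
  have hmn : m * n = b := by rw [hm, hn]; linear_combination (hes - hds) / 4
  have hnm : n < m := by rw [hm, hn]; linarith
  have hprod : (m ^ 2 - 1) * (1 - n ^ 2) = a ^ 2 := by
    have h1 : m ^ 2 + n ^ 2 = (e ^ 2 + d ^ 2) / 2 := by rw [hm, hn]; ring
    have h2 : m ^ 2 * n ^ 2 = b ^ 2 := by rw [← hmn]; ring
    have h3 : (m ^ 2 - 1) * (1 - n ^ 2) = (m ^ 2 + n ^ 2) - 1 - m ^ 2 * n ^ 2 := by ring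
    rw [h3, h1, h2, hes, hds]; ring
  have hm0 : 0 < m := hn0.trans hnm
  have hn1 : n < 1 := by
    by_contra h
    push Not at h
    have h1 : 1 ≤ n ^ 2 := by nlinarith
    have h2 : 1 ≤ m ^ 2 := by nlinarith
    nlinarith
  have hn2 : 0 < 1 - n ^ 2 := by nlinarith
  have hm1 : 1 < m := by
    by_contra h
    push Not at h
    have h2 : m ^ 2 ≤ 1 := by nlinarith
    nlinarith
  set A := (m + 1) / (m - 1) with hA
  have hm1' : 0 < m - 1 := by linarith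
  have hA1 : 1 < A := by rw [hA, one_lt_div hm1']; linarith
  set l := Real.sqrt (A / (1 - n ^ 2)) with hl
  have hl2 : l ^ 2 = A / (1 - n ^ 2) := Real.sq_sqrt (by positivity)
  have hl0 : 0 < l := Real.sqrt_pos.2 (by positivity)
  have hAl : (1 - n ^ 2) * l ^ 2 = A := by rw [hl2]; field_simp
  have hmA : (A + 1) / (A - 1) = m := by
    have h1 : A - 1 = 2 / (m - 1) := by rw [hA]; field_simp; ring
    have h2 : A + 1 = 2 * m / (m - 1) := by rw [hA]; field_simp; ring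
    rw [h1, h2]; field_simp
  have haA : 2 * (1 - n ^ 2) * l / (A - 1) = a := by
    have h1 : A - 1 = 2 / (m - 1) := by rw [hA]; field_simp; ring
    have h2 : 2 * (1 - n ^ 2) * l / (A - 1) = (1 - n ^ 2) * l * (m - 1) := by
      rw [h1]; field_simp
    rw [h2]
    have h3 : ((1 - n ^ 2) * l * (m - 1)) ^ 2 = a ^ 2 := by
      have h4 : ((1 - n ^ 2) * l * (m - 1)) ^ 2 = ((1 - n ^ 2) * l ^ 2) * (1 - n ^ 2) * (m - 1) ^ 2 := by
        ring
      rw [h4, hAl, hA, ← hprod]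
      field_simp
      ring
    have h5 : 0 ≤ (1 - n ^ 2) * l * (m - 1) := by positivity
    exact (pow_left_inj₀ h5 ha.le two_ne_zero).1 h3
  -- continuity in the two parameters
  have hcA : Continuous fun p : ℝ × ℝ => (1 - p.1 ^ 2) * p.2 ^ 2 := by fun_prop
  have hA1' : (1 - n ^ 2) * l ^ 2 - 1 ≠ 0 := by rw [hAl]; linarith
  have c1 : ContinuousAt (fun p : ℝ × ℝ =>
      2 * (1 - p.1 ^ 2) * p.2 / ((1 - p.1 ^ 2) * p.2 ^ 2 - 1)) (n, l) :=
    ContinuousAt.div (by fun_prop) (by fun_prop) hA1'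
  have c2 : ContinuousAt (fun p : ℝ × ℝ =>
      ((1 - p.1 ^ 2) * p.2 ^ 2 + 1) / ((1 - p.1 ^ 2) * p.2 ^ 2 - 1) * p.1) (n, l) := by
    have c3 : ContinuousAt (fun p : ℝ × ℝ =>
      ((1 - p.1 ^ 2) * p.2 ^ 2 + 1) / ((1 - p.1 ^ 2) * p.2 ^ 2 - 1)) (n, l) :=
      ContinuousAt.div (by fun_prop) (by fun_prop) hA1'
    exact c3.mul continuous_fst.continuousAt
  have v1 : 2 * (1 - n ^ 2) * l / ((1 - n ^ 2) * l ^ 2 - 1) = a := by rw [hAl]; exact haA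
  have v2 : ((1 - n ^ 2) * l ^ 2 + 1) / ((1 - n ^ 2) * l ^ 2 - 1) * n = b := by
    rw [hAl, hmA, hmn]
  have e1 : ∀ᶠ p : ℝ × ℝ in 𝓝 (n, l),
      |2 * (1 - p.1 ^ 2) * p.2 / ((1 - p.1 ^ 2) * p.2 ^ 2 - 1) - a| < ε := by
    have h2 := c1
    rw [ContinuousAt] at h2
    simp only [v1] at h2
    filter_upwards [h2.eventually (Metric.ball_mem_nhds a hε)] with p hp
    rwa [Real.dist_eq] at hp
  have e2 : ∀ᶠ p : ℝ × ℝ in 𝓝 (n, l),
      |((1 - p.1 ^ 2) * p.2 ^ 2 + 1) / ((1 - p.1 ^ 2) * p.2 ^ 2 - 1) * p.1 - b| < ε := by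
    have h2 := c2
    rw [ContinuousAt] at h2
    simp only [v2] at h2
    filter_upwards [h2.eventually (Metric.ball_mem_nhds b hε)] with p hp
    rwa [Real.dist_eq] at hp
  have e3 : ∀ᶠ p : ℝ × ℝ in 𝓝 (n, l), 0 < p.1 ∧ p.1 < 1 :=
    (continuous_fst.continuousAt.eventually (lt_mem_nhds hn0)).and
      (continuous_fst.continuousAt.eventually (gt_mem_nhds hn1))
  have e4 : ∀ᶠ p : ℝ × ℝ in 𝓝 (n, l), 0 < p.2 :=
    continuous_snd.continuousAt.eventually (lt_mem_nhds hl0)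
  have e5 : ∀ᶠ p : ℝ × ℝ in 𝓝 (n, l), 1 < (1 - p.1 ^ 2) * p.2 ^ 2 :=
    hcA.continuousAt.eventually (lt_mem_nhds (by simp only [hAl]; exact hA1))
  obtain ⟨δ, hδ, hball⟩ := Metric.eventually_nhds_iff_ball.1 (e1.and (e2.and (e3.and (e4.and e5))))
  obtain ⟨n', hn', hnn⟩ := even_rat_dense n hδ
  obtain ⟨l', hl', hln⟩ := even_rat_dense l hδ
  obtain ⟨p1, p2, ⟨p3, p3'⟩, p4, p5⟩ := hball ((n' : ℝ), (l' : ℝ)) (by
    rw [Metric.mem_ball, Prod.dist_eq, max_lt_iff, Real.dist_eq, Real.dist_eq]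
    exact ⟨hn', hl'⟩)
  simp only at p1 p2 p3 p3' p4 p5
  have hP : PCond n' l' := by
    refine ⟨by exact_mod_cast p3, by exact_mod_cast p3', by exact_mod_cast p4, ?_, hnn, hln⟩
    unfold pA
    exact_mod_cast p5
  have hb' : ((pm n' l' * n' : ℚ) : ℝ)
      = ((1 - (n' : ℝ) ^ 2) * (l' : ℝ) ^ 2 + 1) / ((1 - (n' : ℝ) ^ 2) * (l' : ℝ) ^ 2 - 1) * n' := by
    simp [pm, pA]
  have ha' : ((pa n' l' : ℚ) : ℝ)
      = 2 * (1 - (n' : ℝ) ^ 2) * l' / ((1 - (n' : ℝ) ^ 2) * (l' : ℝ) ^ 2 - 1) := by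
    simp [pa, pA]
  refine ⟨pa n' l', pm n' l' * n', by rw [ha']; exact p1, by rw [hb']; exact p2, hP.a0,
    mul_pos (by linarith [hP.m1]) hP.n0, ⟨pm n' l' - n', ?_⟩, ⟨pm n' l' + n', ?_⟩,
    fun x ε hε => hP.line x hε⟩
  · linear_combination hP.a_sq
  · linear_combination hP.a_sq

end

end Pool.Agent.RatApprox
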