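import Pool.Agent.RatApprox.Param
import Pool.Agent.RatApprox.Defs

/-!
Plane geometry: the line and the circle theorem in the complex plane.
-/

set_option autoImplicit false

namespace Pool.Agent.RatApprox

open Filter Topology Complex ComplexConjugate

noncomputable section

section general

variable {E F : Type*} [PseudoMetricSpace E] [PseudoMetricSpace F]

lemma RationalSet.image_sim {S : Set E} (h : RationalSet S) {f : E → F} {r : ℚ}
    (hf : ∀ x y, dist (f x) (f y) = (r : ℝ) * dist x y) : RationalSet (f '' S) := by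
  rintro _ ⟨x, hx, rfl⟩ _ ⟨y, hy, rfl⟩
  obtain ⟨q, hq⟩ := h x hx y hy
  exact ⟨r * q, by rw [hf, hq]; push_cast; ring⟩

lemma RationallyApproximable.image_sim {P : Set E} (h : RationallyApproximable P) {f : E → F}
    {r : ℚ} (hr : 0 < r) (hf : ∀ x y, dist (f x) (f y) = (r : ℝ) * dist x y) :
    RationallyApproximable (f '' P) := by
  intro ε hε
  have hr' : (0 : ℝ) < r := by exact_mod_cast hr
  obtain ⟨X, hX, hP⟩ := h (ε / r) (by positivity)
  refine ⟨f '' X, hX.image_sim hf, ?_⟩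
  rintro _ ⟨p, hp, rfl⟩
  obtain ⟨x, hx, hpx⟩ := hP p hp
  refine ⟨f x, ⟨x, hx, rfl⟩, ?_⟩
  rw [hf]
  rwa [lt_div_iff₀' hr'] at hpx

lemma RationallyApproximable.mono {P Q : Set E} (h : RationallyApproximable Q) (hPQ : P ⊆ Q) :
    RationallyApproximable P := by
  intro ε hε
  obtain ⟨X, hX, hQ⟩ := h ε hε
  exact ⟨X, hX, fun p hp => hQ p (hPQ hp)⟩

lemma RationallyApproximable.of_close {P : Set E}
    (h : ∀ ε : ℝ, 0 < ε → ∃ P' : Set E, RationallyApproximable P' ∧
      ∀ p ∈ P, ∃ p' ∈ P', dist p p' < ε) : RationallyApproximable P := by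
  intro ε hε
  obtain ⟨P', hP', hc⟩ := h (ε / 2) (by positivity)
  obtain ⟨X, hX, hx⟩ := hP' (ε / 2) (by positivity)
  refine ⟨X, hX, fun p hp => ?_⟩
  obtain ⟨p', hp', h1⟩ := hc p hp
  obtain ⟨x, hxX, h2⟩ := hx p' hp'
  exact ⟨x, hxX, by linarith [dist_triangle p p' x]⟩

lemma RationalSet.insert {S : Set E} (h : RationalSet S) {a : E}
    (ha : ∀ x ∈ S, ∃ q : ℚ, dist a x = (q : ℝ)) : RationalSet (insert a S) := by
  intro x hx y hy
  rcases hx with rfl | hx <;> rcases hy with rfl | hy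
  · exact ⟨0, by simp⟩
  · exact ha y hy
  · obtain ⟨q, hq⟩ := ha x hx
    exact ⟨q, by rw [dist_comm, hq]⟩
  · exact h x hx y hy

end general

/-- the rational set built from good parameters -/
def modelSet (a b : ℚ) : Set ℂ :=
  insert I (insert (-I) (insert ((a : ℂ) + b * I) (insert ((a : ℂ) - b * I)
    {z : ℂ | ∃ y : ℚ, z = (y : ℂ) ∧ (∃ u : ℚ, y ^ 2 + 1 = u ^ 2) ∧
      ∃ v : ℚ, (y - a) ^ 2 + b ^ 2 = v ^ 2})))

lemma dist_rat {z w : ℂ} {x y u : ℚ} (hre : z.re - w.re = x) (him : z.im - w.im = y)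
    (h : x ^ 2 + y ^ 2 = u ^ 2) : ∃ q : ℚ, dist z w = (q : ℝ) := by
  refine ⟨|u|, ?_⟩
  rw [Complex.dist_eq_re_im, hre, him]
  have h2 : (x : ℝ) ^ 2 + (y : ℝ) ^ 2 = (u : ℝ) ^ 2 := by exact_mod_cast h
  rw [h2, Real.sqrt_sq_eq_abs]
  push_cast
  rfl

lemma modelSet_rational {a b : ℚ} (h1 : ∃ u : ℚ, a ^ 2 + (b - 1) ^ 2 = u ^ 2)
    (h2 : ∃ u : ℚ, a ^ 2 + (b + 1) ^ 2 = u ^ 2) : RationalSet (modelSet a b) := by
  obtain ⟨u1, hu1⟩ := h1
  obtain ⟨u2, hu2⟩ := h2
  have base : RationalSet {z : ℂ | ∃ y : ℚ, z = (y : ℂ) ∧ (∃ u : ℚ, y ^ 2 + 1 = u ^ 2) ∧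
      ∃ v : ℚ, (y - a) ^ 2 + b ^ 2 = v ^ 2} := by
    rintro _ ⟨y, rfl, -⟩ _ ⟨y', rfl, -⟩
    exact dist_rat (x := y - y') (y := 0) (u := y - y') (by simp) (by simp) (by ring)
  unfold modelSet
  refine RationalSet.insert (RationalSet.insert (RationalSet.insert (RationalSet.insert base ?_) ?_)
    ?_) ?_
  · rintro _ ⟨y, rfl, -, v, hv⟩
    exact dist_rat (x := a - y) (y := -b) (u := v) (by simp) (by simp) (by linarith)
  · rintro _ (rfl | ⟨y, rfl, -, v, hv⟩)
    · exact dist_rat (x := 0) (y := 2 * b) (u := 2 * b) (by simp) (by simp; ring) (by ring)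
    · exact dist_rat (x := a - y) (y := b) (u := v) (by simp) (by simp) (by linarith)
  · rintro _ (rfl | rfl | ⟨y, rfl, ⟨v, hv⟩, -⟩)
    · exact dist_rat (x := -a) (y := -1 - b) (u := u2) (by simp) (by simp) (by linarith)
    · exact dist_rat (x := -a) (y := -1 + b) (u := u1) (by simp) (by simp) (by linarith)
    · exact dist_rat (x := -y) (y := -1) (u := v) (by simp) (by simp) (by linarith)
  · rintro _ (rfl | rfl | rfl | ⟨y, rfl, ⟨v, hv⟩, -⟩)
    · exact dist_rat (x := 0) (y := 2) (u := 2) (by simp) (by simp; norm_num) (by ring)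
    · exact dist_rat (x := -a) (y := 1 - b) (u := u1) (by simp) (by simp) (by linarith)
    · exact dist_rat (x := -a) (y := 1 + b) (u := u2) (by simp) (by simp) (by linarith)
    · exact dist_rat (x := -y) (y := 1) (u := v) (by simp) (by simp) (by linarith)

end

end Pool.Agent.RatApprox
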